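import Mathlib

/-!
A norm without kinks in the directions of a set with dense span is Gateaux differentiable.
-/

open Filter Topology

namespace Pool.Agent.Helper570.Troy

variable {E : Type*} [NormedAddCommGroup E] [NormedSpace ℝ E]

/-- `N` is a norm on `E` with `‖f‖ ≤ N f ≤ C * ‖f‖`. -/
structure IsNrm (N : E → ℝ) (C : ℝ) : Prop where
  pos : 0 < C
  add : ∀ f g, N (f + g) ≤ N f + N g
  smul : ∀ (c : ℝ) f, N (c • f) = |c| * N f
  ge : ∀ f, ‖f‖ ≤ N f
  le : ∀ f, N f ≤ C * ‖f‖

namespace IsNrm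

variable {N : E → ℝ} {C : ℝ}

theorem nonneg (h : IsNrm N C) (f : E) : 0 ≤ N f := (norm_nonneg f).trans (h.ge f)

theorem neg (h : IsNrm N C) (f : E) : N (-f) = N f := by
  have := h.smul (-1) f
  simpa using this

theorem npos (h : IsNrm N C) {f : E} (hf : f ≠ 0) : 0 < N f :=
  (norm_pos_iff.mpr hf).trans_le (h.ge f)

end IsNrm

/-- The symmetric second difference quotient. -/
noncomputable def kk (N : E → ℝ) (f g : E) (t : ℝ) : ℝ :=
  (N (f + t • g) + N (f - t • g) - 2 * N f) / t

/-- No kink at `f` in the direction `g`. -/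
def NK (N : E → ℝ) (f g : E) : Prop := Tendsto (kk N f g) (𝓝[>] 0) (𝓝 0)

variable {N : E → ℝ} {C : ℝ}

theorem kk_num_nonneg (h : IsNrm N C) (f g : E) : 0 ≤ N (f + g) + N (f - g) - 2 * N f := by
  have h1 := h.add (f + g) (f - g)
  have h2 : f + g + (f - g) = (2:ℝ) • f := by rw [two_smul]; abel
  rw [h2, h.smul, abs_of_pos (by norm_num : (0:ℝ) < 2)] at h1
  linarith

theorem kk_nonneg (h : IsNrm N C) (f g : E) {t : ℝ} (ht : 0 < t) : 0 ≤ kk N f g t :=
  div_nonneg (kk_num_nonneg h f _) ht.le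

theorem NK_zero (N : E → ℝ) (f : E) : NK N f 0 := by
  unfold NK
  have : kk N f 0 = fun _ => 0 := by
    funext t
    unfold kk
    rw [smul_zero, add_zero, sub_zero]
    ring
  rw [this]
  exact tendsto_const_nhds

theorem tendsto_mul_pos {c : ℝ} (hc : 0 < c) :
    Tendsto (fun t : ℝ => c * t) (𝓝[>] 0) (𝓝[>] 0) := by
  rw [tendsto_nhdsWithin_iff]
  refine ⟨?_, ?_⟩
  · have : Tendsto (fun t : ℝ => c * t) (𝓝 0) (𝓝 (c * 0)) := tendsto_id.const_mul c
    rw [mul_zero] at this
    exact this.mono_left nhdsWithin_le_nhds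
  · filter_upwards [self_mem_nhdsWithin] with t ht
    exact mul_pos hc ht

theorem NK_add (hN : IsNrm N C) {f g g' : E} (h : NK N f g) (h' : NK N f g') :
    NK N f (g + g') := by
  have h1 := (h.comp (tendsto_mul_pos two_pos)).add (h'.comp (tendsto_mul_pos two_pos))
  rw [add_zero] at h1
  refine tendsto_of_tendsto_of_tendsto_of_le_of_le' tendsto_const_nhds h1 ?_ ?_
  · filter_upwards [self_mem_nhdsWithin] with t ht
    exact kk_nonneg hN f _ ht
  · filter_upwards [self_mem_nhdsWithin] with t ht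
    have ht' : (0:ℝ) < t := ht
    simp only [Function.comp]
    unfold kk
    have e1 : f + t • (g + g') = (1/2:ℝ) • (f + (2 * t) • g) + (1/2:ℝ) • (f + (2 * t) • g') := by
      module
    have e2 : f - t • (g + g') = (1/2:ℝ) • (f - (2 * t) • g) + (1/2:ℝ) • (f - (2 * t) • g') := by
      module
    have a1 := hN.add ((1/2:ℝ) • (f + (2 * t) • g)) ((1/2:ℝ) • (f + (2 * t) • g'))
    have a2 := hN.add ((1/2:ℝ) • (f - (2 * t) • g)) ((1/2:ℝ) • (f - (2 * t) • g'))
    rw [← e1, hN.smul, hN.smul, abs_of_pos (by norm_num : (0:ℝ) < 1/2)] at a1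
    rw [← e2, hN.smul, hN.smul, abs_of_pos (by norm_num : (0:ℝ) < 1/2)] at a2
    rw [← add_div, div_le_div_iff₀ ht' (by positivity)]
    nlinarith

theorem NK_smul {f g : E} (c : ℝ) (h : NK N f g) : NK N f (c • g) := by
  rcases eq_or_ne c 0 with rfl | hc
  · rw [zero_smul]
    exact NK_zero N f
  have hc' : 0 < |c| := abs_pos.mpr hc
  have h1 := (h.comp (tendsto_mul_pos hc')).const_mul |c|
  rw [mul_zero] at h1
  refine h1.congr' ?_
  filter_upwards [self_mem_nhdsWithin] with t ht
  have ht' : (0:ℝ) < t := ht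
  simp only [Function.comp]
  unfold kk
  rcases abs_cases c with ⟨h2, _⟩ | ⟨h2, _⟩
  · rw [h2, smul_smul, mul_comm t c]
    field_simp
  · rw [h2]
    have e1 : f + (-c * t) • g = f - t • c • g := by module
    have e2 : f - (-c * t) • g = f + t • c • g := by module
    rw [e1, e2]
    have : -c ≠ 0 := neg_ne_zero.mpr hc
    field_simp
    ring

theorem NK_span (hN : IsNrm N C) {f : E} {S : Set E} (hS : ∀ g ∈ S, NK N f g) {g : E}
    (hg : g ∈ Submodule.span ℝ S) : NK N f g := by
  induction hg using Submodule.span_induction with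
  | mem x hx => exact hS x hx
  | zero => exact NK_zero N f
  | add x y _ _ hx hy => exact NK_add hN hx hy
  | smul a x _ hx => exact NK_smul a hx

theorem NK_all (hN : IsNrm N C) {f : E} {S : Set E} (hS : ∀ g ∈ S, NK N f g)
    (hd : ∀ x : E, x ∈ closure (Submodule.span ℝ S : Set E)) (g : E) : NK N f g := by
  unfold NK
  rw [Metric.tendsto_nhds]
  intro ε hε
  have hC := hN.pos
  obtain ⟨g', hg', hdist⟩ := Metric.mem_closure_iff.mp (hd g) (ε / (4 * C)) (by positivity)
  rw [dist_eq_norm] at hdist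
  have hd' : N (g - g') < ε / 4 := by
    calc N (g - g') ≤ C * ‖g - g'‖ := hN.le _
      _ < C * (ε / (4 * C)) := mul_lt_mul_of_pos_left hdist hC
      _ = ε / 4 := by field_simp
  have h1 := NK_span hN hS hg'
  unfold NK at h1
  rw [Metric.tendsto_nhds] at h1
  filter_upwards [h1 (ε / 2) (by positivity), self_mem_nhdsWithin] with t h2 ht
  have ht' : (0:ℝ) < t := ht
  rw [Real.dist_eq, sub_zero, abs_of_nonneg (kk_nonneg hN f _ ht')] at *
  have a1 := hN.add (f + t • g') (t • (g - g'))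
  have a2 := hN.add (f - t • g') (-(t • (g - g')))
  have e1 : f + t • g' + t • (g - g') = f + t • g := by module
  have e2 : f - t • g' + -(t • (g - g')) = f - t • g := by module
  rw [e1, hN.smul, abs_of_pos ht'] at a1
  rw [e2, hN.neg, hN.smul, abs_of_pos ht'] at a2
  have a3 : kk N f g t ≤ kk N f g' t + 2 * N (g - g') := by
    unfold kk
    rw [div_add' _ _ _ ht'.ne']
    apply div_le_div_of_nonneg_right _ ht'.le
    nlinarith
  linarith

theorem exists_support (hN : IsNrm N C) {f : E} (hf : f ≠ 0) :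
    ∃ L : E →L[ℝ] ℝ, L f = N f ∧ ∀ h, L h ≤ N h := by
  set PM : E →ₗ.[ℝ] ℝ := LinearPMap.mkSpanSingleton f (N f) hf with hPM
  have hdom : PM.domain = Submodule.span ℝ {f} := rfl
  have happ : ∀ (c : ℝ) (hx : c • f ∈ PM.domain), PM ⟨c • f, hx⟩ = c * N f :=
    fun c hx => LinearPMap.mkSpanSingleton'_apply _ _ _ _ _
  obtain ⟨g, hg1, hg2⟩ := exists_extension_of_le_sublinear PM N
    (fun c hc x => by rw [hN.smul, abs_of_pos hc]) hN.add
    (by
      rintro ⟨x, hx⟩
      obtain ⟨c, rfl⟩ := Submodule.mem_span_singleton.mp (hdom ▸ hx)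
      rw [happ]
      change c * N f ≤ N (c • f)
      rw [hN.smul]
      exact mul_le_mul_of_nonneg_right (le_abs_self c) (hN.nonneg f))
  have hf1 : g f = N f := by
    have hm : (1:ℝ) • f ∈ PM.domain := by
      rw [one_smul, hdom]
      exact Submodule.mem_span_singleton_self f
    have h1 := hg1 ⟨(1:ℝ) • f, hm⟩
    rw [happ, one_mul] at h1
    simpa using h1
  refine ⟨LinearMap.mkContinuous g C ?_, hf1, hg2⟩
  intro h
  rw [Real.norm_eq_abs, abs_le]
  constructor
  · have h1 := hg2 (-h)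
    rw [map_neg, hN.neg] at h1
    have h2 := hN.le h
    linarith
  · exact (hg2 h).trans (hN.le h)

theorem gateaux (hN : IsNrm N C) {f : E} (hf : f ≠ 0) {S : Set E} (hS : ∀ g ∈ S, NK N f g)
    (hd : ∀ x : E, x ∈ closure (Submodule.span ℝ S : Set E)) :
    ∃ L : E →L[ℝ] ℝ, ∀ h : E, HasDerivAt (fun t : ℝ => N (f + t • h)) (L h) 0 := by
  obtain ⟨L, hL1, hL2⟩ := exists_support hN hf
  refine ⟨L, ?_⟩
  intro h
  rw [hasDerivAt_iff_tendsto_slope_zero]
  have habs : Tendsto (fun t : ℝ => |t|) (𝓝[≠] 0) (𝓝[>] 0) := by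
    rw [tendsto_nhdsWithin_iff]
    refine ⟨?_, ?_⟩
    · have : Tendsto (fun t : ℝ => |t|) (𝓝 0) (𝓝 |0|) := continuous_abs.tendsto 0
      rw [abs_zero] at this
      exact this.mono_left nhdsWithin_le_nhds
    · filter_upwards [self_mem_nhdsWithin] with t ht
      exact abs_pos.mpr ht
  have h1 : Tendsto (fun t : ℝ => kk N f h |t|) (𝓝[≠] 0) (𝓝 0) :=
    (NK_all hN hS hd h).comp habs
  rw [tendsto_iff_norm_sub_tendsto_zero]
  refine tendsto_of_tendsto_of_tendsto_of_le_of_le' tendsto_const_nhds h1 ?_ ?_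
  · exact Eventually.of_forall fun t => norm_nonneg _
  · filter_upwards [self_mem_nhdsWithin] with t ht
    have ht' : t ≠ 0 := ht
    have htp : 0 < |t| := abs_pos.mpr ht'
    have b1 := hL2 (f + t • h)
    have b2 := hL2 (f - t • h)
    rw [map_add, map_smul, hL1, smul_eq_mul] at b1
    rw [map_sub, map_smul, hL1, smul_eq_mul] at b2
    have e : kk N f h |t| * |t| = N (f + t • h) + N (f - t • h) - 2 * N f := by
      unfold kk
      rw [div_mul_cancel₀ _ htp.ne']
      rcases abs_cases t with ⟨h2, _⟩ | ⟨h2, _⟩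
      · rw [h2]
      · rw [h2]
        have e1 : f + (-t) • h = f - t • h := by module
        have e2 : f - (-t) • h = f + t • h := by module
        rw [e1, e2]
        ring
    have e3 : t⁻¹ • (N (f + (0 + t) • h) - N (f + (0:ℝ) • h)) - L h =
        (N (f + t • h) - N f - t * L h) / t := by
      rw [zero_add, zero_smul, add_zero, smul_eq_mul]
      field_simp
    rw [e3, Real.norm_eq_abs, abs_div, div_le_iff₀ htp, e, abs_of_nonneg (by linarith)]
    linarith

end Pool.Agent.Helper570.Troy
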