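import Mathlib

/-!
Kinks of convex functions of one variable.
-/

open Filter Topology

namespace Pool.Agent.Helper570.Troy

def NoKinkAt (φ : ℝ → ℝ) (x0 : ℝ) : Prop :=
  Tendsto (fun h : ℝ => (φ (x0 + h) + φ (x0 - h) - 2 * φ x0) / h) (𝓝[>] 0) (𝓝 0)

/-- The symmetric second difference quotient of a convex function is monotone. -/
theorem kink_mono {φ : ℝ → ℝ} {s : Set ℝ} (hφ : ConvexOn ℝ s φ) {x0 h h' : ℝ} (h0 : 0 < h)
    (hh : h ≤ h') (m0 : x0 ∈ s) (m1 : x0 + h' ∈ s) (m2 : x0 - h' ∈ s) :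
    (φ (x0 + h) + φ (x0 - h) - 2 * φ x0) / h ≤ (φ (x0 + h') + φ (x0 - h') - 2 * φ x0) / h' := by
  have h0' : 0 < h' := h0.trans_le hh
  set r := h / h' with hr
  have hr0 : 0 ≤ r := by positivity
  have hr1 : r ≤ 1 := by rw [hr, div_le_one h0']; exact hh
  have e : r * h' = h := by rw [hr]; field_simp
  have a1 := hφ.2 m0 m1 (sub_nonneg.mpr hr1) hr0 (by ring)
  have a2 := hφ.2 m0 m2 (sub_nonneg.mpr hr1) hr0 (by ring)
  simp only [smul_eq_mul] at a1 a2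
  have b1 : (1 - r) * x0 + r * (x0 + h') = x0 + h := by rw [← e]; ring
  have b2 : (1 - r) * x0 + r * (x0 - h') = x0 - h := by rw [← e]; ring
  rw [b1] at a1
  rw [b2] at a2
  rw [div_le_div_iff₀ h0 h0']
  have : φ (x0 + h) + φ (x0 - h) - 2 * φ x0 ≤ r * (φ (x0 + h') + φ (x0 - h') - 2 * φ x0) := by
    linarith
  calc (φ (x0 + h) + φ (x0 - h) - 2 * φ x0) * h'
      ≤ (r * (φ (x0 + h') + φ (x0 - h') - 2 * φ x0)) * h' :=
        mul_le_mul_of_nonneg_right this h0'.le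
    _ = (φ (x0 + h') + φ (x0 - h') - 2 * φ x0) * (r * h') := by ring
    _ = _ := by rw [e]

theorem kink_nonneg {φ : ℝ → ℝ} {s : Set ℝ} (hφ : ConvexOn ℝ s φ) {x0 h : ℝ}
    (m1 : x0 + h ∈ s) (m2 : x0 - h ∈ s) :
    0 ≤ φ (x0 + h) + φ (x0 - h) - 2 * φ x0 := by
  have a1 := hφ.2 m1 m2 (by norm_num : (0:ℝ) ≤ 1 / 2) (by norm_num : (0:ℝ) ≤ 1 / 2) (by norm_num)
  simp only [smul_eq_mul] at a1
  have : 1 / 2 * (x0 + h) + 1 / 2 * (x0 - h) = x0 := by ring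
  rw [this] at a1
  linarith

/-- For a convex function the kink can be computed along a sequence. -/
theorem noKink_of_seq {φ : ℝ → ℝ} {s : Set ℝ} (hφ : ConvexOn ℝ s φ) {x0 : ℝ} (hs : s ∈ 𝓝 x0)
    {u : ℕ → ℝ} (hu : ∀ n, 0 < u n)
    (hu0 : Tendsto u atTop (𝓝 0))
    (h : Tendsto (fun n => (φ (x0 + u n) + φ (x0 - u n) - 2 * φ x0) / u n) atTop (𝓝 0)) :
    NoKinkAt φ x0 := by
  have tp : Tendsto (fun t : ℝ => x0 + t) (𝓝 0) (𝓝 x0) := by
    have : Tendsto (fun h : ℝ => x0 + h) (𝓝 0) (𝓝 (x0 + 0)) := by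
      apply Continuous.tendsto; fun_prop
    rwa [add_zero] at this
  have tn : Tendsto (fun t : ℝ => x0 - t) (𝓝 0) (𝓝 x0) := by
    have : Tendsto (fun h : ℝ => x0 - h) (𝓝 0) (𝓝 (x0 - 0)) := by
      apply Continuous.tendsto; fun_prop
    rwa [sub_zero] at this
  unfold NoKinkAt
  rw [Metric.tendsto_nhds]
  intro ε hε
  have e1 := (Metric.tendsto_nhds.mp h ε hε).and
    ((hu0.eventually (tp.eventually hs)).and (hu0.eventually (tn.eventually hs)))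
  obtain ⟨n, hn1, hn2, hn3⟩ := e1.exists
  have e2 : ∀ᶠ t : ℝ in 𝓝[>] 0, t ≤ u n :=
    (eventually_le_nhds (hu n)).filter_mono nhdsWithin_le_nhds
  have e3 : ∀ᶠ t : ℝ in 𝓝[>] 0, x0 + t ∈ s := (tp.eventually hs).filter_mono nhdsWithin_le_nhds
  have e4 : ∀ᶠ t : ℝ in 𝓝[>] 0, x0 - t ∈ s := (tn.eventually hs).filter_mono nhdsWithin_le_nhds
  filter_upwards [e2, e3, e4, self_mem_nhdsWithin] with t h1 h2 h3 h4
  have h4' : (0:ℝ) < t := h4
  have k1 := kink_mono hφ h4' h1 (mem_of_mem_nhds hs) hn2 hn3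
  have k2 := kink_nonneg hφ h2 h3
  rw [Real.dist_eq, sub_zero, abs_of_nonneg (div_nonneg k2 h4'.le)]
  rw [Real.dist_eq, sub_zero] at hn1
  exact lt_of_le_of_lt (k1.trans (le_abs_self _)) hn1


end Pool.Agent.Helper570.Troy
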