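import Mathlib

/-!
Resampling one coordinate of an infinite product measure, and almost everywhere absence of kinks
of coordinatewise monotone functions.
-/

open MeasureTheory Measure Filter Topology Set

set_option linter.unusedSectionVars false

namespace Pool.Agent.Helper570.Troy

section resample
variable {ι : Type*} [DecidableEq ι] {X : ι → Type*} [∀ i, MeasurableSpace (X i)]
  (μ : ∀ i, Measure (X i)) [∀ i, IsProbabilityMeasure (μ i)]

theorem measurable_update_pair (b : ι) :
    Measurable (fun z : (∀ i, X i) × X b => Function.update z.1 b z.2) := by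
  rw [measurable_pi_iff]
  intro i
  by_cases h : i = b
  · subst h
    simp only [Function.update_self]
    exact measurable_snd
  · simp only [Function.update_of_ne h]
    exact (measurable_pi_apply i).comp measurable_fst

theorem map_update (b : ι) :
    ((infinitePi μ).prod (μ b)).map (fun z => Function.update z.1 b z.2) = infinitePi μ := by
  refine eq_infinitePi μ fun s t ht => ?_
  rw [Measure.map_apply (measurable_update_pair b)
    (MeasurableSet.pi s.countable_toSet fun i _ => ht i)]
  have hset : (fun z : (∀ i, X i) × X b => Function.update z.1 b z.2) ⁻¹' (Set.pi (s : Set ι) t) =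
      (Set.pi ((s.erase b : Finset ι) : Set ι) t) ×ˢ (if b ∈ s then t b else Set.univ) := by
    ext z
    simp only [Set.mem_preimage, Set.mem_pi, Finset.mem_coe, Set.mem_prod, Finset.mem_erase]
    constructor
    · intro h
      refine ⟨fun i hi => ?_, ?_⟩
      · have := h i hi.2
        rwa [Function.update_of_ne hi.1] at this
      · split_ifs with hb
        · have := h b hb
          rwa [Function.update_self] at this
        · trivial
    · rintro ⟨h1, h2⟩ i hi
      by_cases hib : i = b
      · subst hib
        rw [Function.update_self]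
        rwa [if_pos hi] at h2
      · rw [Function.update_of_ne hib]
        exact h1 i ⟨hib, hi⟩
  rw [hset, Measure.prod_prod, infinitePi_pi μ (fun i _ => ht i)]
  by_cases hb : b ∈ s
  · rw [if_pos hb, mul_comm, Finset.mul_prod_erase s (fun i => μ i (t i)) hb]
  · rw [if_neg hb, measure_univ, mul_one, Finset.erase_eq_of_notMem hb]

/-- If a measurable property holds for almost every resampling of the coordinate `b`, whatever the
other coordinates, then it holds almost everywhere. -/
theorem ae_of_resample (b : ι) {Q : (∀ i, X i) → Prop} (hQ : MeasurableSet {ξ | Q ξ})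
    (h : ∀ ξ, ∀ᵐ x ∂(μ b), Q (Function.update ξ b x)) : ∀ᵐ ξ ∂(infinitePi μ), Q ξ := by
  have hQ' : MeasurableSet {ξ | ¬ Q ξ} := hQ.compl
  rw [ae_iff, ← map_update μ b, Measure.map_apply (measurable_update_pair b) hQ']
  rw [Measure.measure_prod_null (measurable_update_pair b hQ')]
  refine Eventually.of_forall fun ξ => ?_
  have := h ξ
  rw [ae_iff] at this
  exact this

end resample

/-- The uniform distribution on `[0, 1]`. -/
noncomputable def mu0 : Measure ℝ := volume.restrict (Icc 0 1)

instance : IsProbabilityMeasure mu0 := by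
  constructor
  unfold mu0
  rw [Measure.restrict_apply_univ, Real.volume_Icc]
  simp

theorem mu0_Ioo : ∀ᵐ x ∂mu0, 0 < x ∧ x < 1 := by
  unfold mu0
  rw [ae_restrict_iff' measurableSet_Icc]
  have h0 : ∀ᵐ x : ℝ, x ≠ 0 := by
    rw [ae_iff]; simp
  have h1 : ∀ᵐ x : ℝ, x ≠ 1 := by
    rw [ae_iff]; simp
  filter_upwards [h0, h1] with x h2 h3 h4
  exact ⟨lt_of_le_of_ne h4.1 (Ne.symm h2), lt_of_le_of_ne h4.2 h3⟩

variable {K : Type*} [DecidableEq K]

/-- The law of independent uniform weights. -/
noncomputable def PP (K : Type*) : Measure (K → ℝ) := infinitePi (fun _ : K => mu0)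

instance : IsProbabilityMeasure (PP K) := by unfold PP; infer_instance

theorem ae_coord (b : K) : ∀ᵐ ξ ∂(PP K), 0 < ξ b ∧ ξ b < 1 := by
  have hm := measurePreserving_eval_infinitePi (fun _ : K => mu0) b
  exact hm.quasiMeasurePreserving.ae mu0_Ioo

/-- The symmetric difference quotient in the coordinate `b`. -/
noncomputable def quot (F : (K → ℝ) → ℝ) (b : K) (n : ℕ) (ξ : K → ℝ) : ℝ :=
  (F (Function.update ξ b (ξ b + 1 / ((n : ℝ) + 1))) +
    F (Function.update ξ b (ξ b - 1 / ((n : ℝ) + 1))) - 2 * F ξ) / (1 / ((n : ℝ) + 1))

theorem measurable_quot {F : (K → ℝ) → ℝ} (hF : Measurable F) (b : K) (n : ℕ) :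
    Measurable (quot F b n) := by
  have h : ∀ c : ℝ, Measurable (fun ξ : K → ℝ => Function.update ξ b (ξ b + c)) := by
    intro c
    have h1 : Measurable (fun ξ : K → ℝ => (ξ, ξ b + c)) :=
      measurable_id.prodMk (by fun_prop)
    exact (measurable_update_pair (X := fun _ : K => ℝ) b).comp h1
  have h2 : Measurable (fun ξ : K → ℝ => Function.update ξ b (ξ b - 1 / ((n : ℝ) + 1))) := by
    have := h (-(1 / ((n : ℝ) + 1)))
    simpa only [sub_eq_add_neg] using this
  exact (((hF.comp (h _)).add (hF.comp h2)).sub (hF.const_mul 2)).div_const _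

theorem ae_quot {F : (K → ℝ) → ℝ} (hF : Measurable F) (b : K)
    (hmono : ∀ ξ, Monotone (fun x => F (Function.update ξ b x))) :
    ∀ᵐ ξ ∂(PP K), Tendsto (fun n => quot F b n ξ) atTop (𝓝 0) := by
  unfold PP
  apply ae_of_resample (fun _ : K => mu0) b
  · exact measurableSet_tendsto _ (measurable_quot hF b)
  · intro ξ
    unfold mu0
    apply ae_restrict_of_ae
    filter_upwards [(hmono ξ).ae_differentiableAt] with x hx
    have hq : ∀ n, quot F b n (Function.update ξ b x) =
        (F (Function.update ξ b (x + 1 / ((n : ℝ) + 1))) +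
          F (Function.update ξ b (x - 1 / ((n : ℝ) + 1))) -
          2 * F (Function.update ξ b x)) / (1 / ((n : ℝ) + 1)) := by
      intro n
      unfold quot
      rw [Function.update_self, Function.update_idem, Function.update_idem]
    simp_rw [hq]
    set g : ℝ → ℝ := fun x => F (Function.update ξ b x) with hg
    have hd := hx.hasDerivAt
    have tu : Tendsto (fun n : ℕ => 1 / ((n : ℝ) + 1)) atTop (𝓝[≠] 0) := by
      apply tendsto_nhdsWithin_of_tendsto_nhds_of_eventually_within
      · exact tendsto_one_div_add_atTop_nhds_zero_nat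
      · refine Eventually.of_forall fun n => ?_
        have : (1:ℝ) / ((n : ℝ) + 1) ≠ 0 := by positivity
        exact this
    have tu' : Tendsto (fun n : ℕ => -(1 / ((n : ℝ) + 1))) atTop (𝓝[≠] 0) := by
      apply tendsto_nhdsWithin_of_tendsto_nhds_of_eventually_within
      · have := (tendsto_one_div_add_atTop_nhds_zero_nat (𝕜 := ℝ)).neg
        simpa using this
      · refine Eventually.of_forall fun n => ?_
        have : -((1:ℝ) / ((n : ℝ) + 1)) ≠ 0 := neg_ne_zero.mpr (by positivity)
        exact this
    have hs := hasDerivAt_iff_tendsto_slope_zero.mp hd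
    have a1 := hs.comp tu
    have a2 := hs.comp tu'
    have a3 := a1.sub a2
    rw [sub_self] at a3
    refine a3.congr fun n => ?_
    simp only [Function.comp, smul_eq_mul]
    have hn : (1:ℝ) / ((n : ℝ) + 1) ≠ 0 := by positivity
    have e1 : x + -(1 / ((n : ℝ) + 1)) = x - 1 / ((n : ℝ) + 1) := by ring
    rw [e1]
    field_simp
    ring

end Pool.Agent.Helper570.Troy
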