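import Pool.Agent.Helper570.Troy.One
import Pool.Agent.Helper570.Troy.Kink
import Pool.Agent.Helper570.Troy.Prob
import Pool.Agent.Helper570.Troy.Gat

/-!
Averaging `N1` over independent random weights gives a Gateaux differentiable norm.
-/

open MeasureTheory Filter Topology

set_option linter.unusedSectionVars false

namespace Pool.Agent.Helper570.Troy

/-- The clamp to `[0, 1]`. -/
noncomputable def cl (x : ℝ) : ℝ := max 0 (min x 1)

theorem cl_nonneg (x : ℝ) : 0 ≤ cl x := le_max_left _ _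

theorem cl_le (x : ℝ) : cl x ≤ 1 := max_le zero_le_one (min_le_right _ _)

theorem cl_mono : Monotone cl := fun _ _ h => max_le_max le_rfl (min_le_min_right _ h)

theorem cl_eq {x : ℝ} (h0 : 0 ≤ x) (h1 : x ≤ 1) : cl x = x := by
  unfold cl
  rw [min_eq_left h1, max_eq_right h0]

theorem continuous_cl : Continuous cl := by unfold cl; fun_prop

/-- The weights in `[1, 2]`. -/
noncomputable def wt (ξ : Idx → ℝ) (s : Idx) : ℝ := 1 + cl (ξ s)

theorem wt_ge (ξ : Idx → ℝ) (s : Idx) : 1 ≤ wt ξ s := by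
  unfold wt; linarith [cl_nonneg (ξ s)]

theorem wt_le (ξ : Idx → ℝ) (s : Idx) : wt ξ s ≤ 2 := by
  unfold wt; linarith [cl_le (ξ s)]

theorem abs_wt_mul_le (ξ : Idx → ℝ) (s : Idx) (a : ℝ) : |wt ξ s * a| ≤ 2 * |a| := by
  rw [abs_mul, abs_of_nonneg (zero_le_one.trans (wt_ge ξ s))]
  exact mul_le_mul_of_nonneg_right (wt_le ξ s) (abs_nonneg _)

theorem abs_wt_mul_ge (ξ : Idx → ℝ) (s : Idx) (a : ℝ) : |a| ≤ |wt ξ s * a| := by
  rw [abs_mul, abs_of_nonneg (zero_le_one.trans (wt_ge ξ s))]
  nlinarith [abs_nonneg a, wt_ge ξ s]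

/-- Multiplication by the weights. -/
noncomputable def act (ξ : Idx → ℝ) (x : X) : X :=
  ⟨fun s => wt ξ s * x s, by
    intro ε hε
    obtain ⟨F0, hF0⟩ := x.tail (ε / 2) (half_pos hε)
    refine ⟨F0, ?_⟩
    intro F hF hd
    have h1 := hF0 F hF hd
    calc ∑ s ∈ F, |wt ξ s * x s| ≤ ∑ s ∈ F, 2 * |x s| :=
          Finset.sum_le_sum fun s _ => abs_wt_mul_le ξ s _
      _ = 2 * ∑ s ∈ F, |x s| := by rw [Finset.mul_sum]
      _ ≤ ε := by linarith⟩

theorem act_apply (ξ : Idx → ℝ) (x : X) (s : Idx) : act ξ x s = wt ξ s * x s := rfl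

theorem act_add (ξ : Idx → ℝ) (x y : X) : act ξ (x + y) = act ξ x + act ξ y := by
  apply X.ext; intro s
  simp only [act_apply, X.add_apply]; ring

theorem act_smul (ξ : Idx → ℝ) (c : ℝ) (x : X) : act ξ (c • x) = c • act ξ x := by
  apply X.ext; intro s
  simp only [act_apply, X.smul_apply]; ring

theorem act_sub (ξ : Idx → ℝ) (x y : X) : act ξ (x - y) = act ξ x - act ξ y := by
  apply X.ext; intro s
  simp only [act_apply, X.sub_apply]; ring

theorem act_bas (ξ : Idx → ℝ) (c : Idx) : act ξ (bas c) = wt ξ c • bas c := by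
  apply X.ext; intro s
  simp only [act_apply, X.smul_apply]
  by_cases h : s = c
  · rw [h]
  · rw [bas_ne h, mul_zero, mul_zero]

theorem norm_act_le (ξ : Idx → ℝ) (x : X) : ‖act ξ x‖ ≤ 2 * ‖x‖ := by
  apply X.norm_le
  intro F hF
  calc ∑ s ∈ F, |act ξ x s| ≤ ∑ s ∈ F, 2 * |x s| :=
        Finset.sum_le_sum fun s _ => abs_wt_mul_le ξ s _
    _ = 2 * ∑ s ∈ F, |x s| := by rw [Finset.mul_sum]
    _ ≤ 2 * ‖x‖ := mul_le_mul_of_nonneg_left (x.sum_le hF) (by norm_num)

theorem norm_le_act (ξ : Idx → ℝ) (x : X) : ‖x‖ ≤ ‖act ξ x‖ := by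
  apply X.norm_le
  intro F hF
  exact (Finset.sum_le_sum fun s _ => abs_wt_mul_ge ξ s _).trans ((act ξ x).sum_le hF)

theorem act_ne_zero (ξ : Idx → ℝ) {x : X} (hx : x ≠ 0) : act ξ x ≠ 0 := by
  have h1 := norm_pos_iff.mpr hx
  exact norm_pos_iff.mp (h1.trans_le (norm_le_act ξ x))

theorem N1_act_le (ξ : Idx → ℝ) (x : X) : N1 (act ξ x) ≤ 4 * ‖x‖ := by
  have h1 := N1_le_norm (act ξ x)
  have h2 := norm_act_le ξ x
  linarith

theorem abs_N1_sub_le (x y : X) : |N1 x - N1 y| ≤ 2 * ‖x - y‖ := by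
  rw [abs_le]
  constructor
  · have := N1_add x (y - x)
    have h2 : x + (y - x) = y := by abel
    rw [h2] at this
    have h3 := N1_le_norm (y - x)
    rw [norm_sub_rev] at h3
    linarith
  · have := N1_add y (x - y)
    have h2 : y + (x - y) = x := by abel
    rw [h2] at this
    have h3 := N1_le_norm (x - y)
    linarith

theorem continuous_N1 : Continuous N1 := by
  have : LipschitzWith 2 N1 := by
    apply LipschitzWith.of_dist_le_mul
    intro x y
    rw [Real.dist_eq, dist_eq_norm]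
    exact abs_N1_sub_le x y
  exact this.continuous

theorem measurable_wt (s : Idx) : Measurable fun ξ : Idx → ℝ => wt ξ s := by
  unfold wt
  exact (continuous_cl.measurable.comp (measurable_pi_apply s)).const_add 1

theorem act_sum (ξ : Idx → ℝ) (F : Finset Idx) (x : X) :
    act ξ (∑ i ∈ F, x i • bas i) = ∑ i ∈ F, (wt ξ i * x i) • bas i := by
  apply X.ext
  intro s
  rw [act_apply, sum_apply, sum_apply F (fun i => wt ξ i * x i)]
  split_ifs
  · rfl
  · rw [mul_zero]

theorem measurable_N1_sum (F : Finset Idx) (x : X) :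
    Measurable fun ξ : Idx → ℝ => N1 (act ξ (∑ i ∈ F, x i • bas i)) := by
  have h1 : Continuous fun c : F → ℝ => N1 (∑ i : F, c i • bas (i : Idx)) := by
    apply continuous_N1.comp
    apply continuous_finsetSum
    intro i _
    exact (continuous_apply i).smul continuous_const
  have h2 : Measurable fun ξ : Idx → ℝ => fun i : F => wt ξ i * x i := by
    rw [measurable_pi_iff]
    intro i
    exact (measurable_wt i).mul_const _
  have h3 := h1.measurable.comp h2
  have e : (fun ξ : Idx → ℝ => N1 (act ξ (∑ i ∈ F, x i • bas i))) =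
      (fun c : F → ℝ => N1 (∑ i : F, c i • bas (i : Idx))) ∘
        (fun ξ : Idx → ℝ => fun i : F => wt ξ i * x i) := by
    funext ξ
    simp only [Function.comp]
    rw [act_sum]
    congr 1
    rw [← Finset.sum_coe_sort F fun i => (wt ξ i * x i) • bas i]
  rw [e]
  exact h3

theorem measurable_N1_act (x : X) : Measurable fun ξ : Idx → ℝ => N1 (act ξ x) := by
  have h : ∀ n : ℕ, ∃ F : Finset Idx, ‖x - ∑ i ∈ F, x i • bas i‖ < 1 / ((n : ℝ) + 1) := by
    intro n
    have h := hasSum_bas x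
    unfold HasSum at h
    rw [Metric.tendsto_nhds] at h
    obtain ⟨F, hF⟩ := (h (1 / ((n : ℝ) + 1)) (by positivity)).exists
    refine ⟨F, ?_⟩
    rw [dist_eq_norm] at hF
    rwa [norm_sub_rev]
  choose F hF using h
  apply measurable_of_tendsto_metrizable (f := fun n ξ => N1 (act ξ (∑ i ∈ F n, x i • bas i)))
    fun n => measurable_N1_sum (F n) x
  rw [tendsto_pi_nhds]
  intro ξ
  apply (continuous_N1.tendsto _).comp
  rw [tendsto_iff_norm_sub_tendsto_zero]
  have h1 : Tendsto (fun n : ℕ => 2 * (1 / ((n : ℝ) + 1))) atTop (𝓝 (2 * 0)) :=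
    tendsto_one_div_add_atTop_nhds_zero_nat.const_mul 2
  rw [mul_zero] at h1
  refine squeeze_zero (fun _ => norm_nonneg _) (fun n => ?_) h1
  rw [norm_sub_rev, ← act_sub]
  refine (norm_act_le ξ _).trans ?_
  have := hF n
  linarith

/-! ### The average -/

noncomputable def AvT (x : X) : ℝ := ∫ ξ, N1 (act ξ x) ∂(PP Idx)

theorem integrable_N1 (x : X) : Integrable (fun ξ => N1 (act ξ x)) (PP Idx) := by
  apply Integrable.of_bound (measurable_N1_act x).aestronglyMeasurable (4 * ‖x‖)
  refine Eventually.of_forall fun ξ => ?_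
  rw [Real.norm_of_nonneg (N1_nonneg _)]
  exact N1_act_le ξ x

theorem AvT_add (x y : X) : AvT (x + y) ≤ AvT x + AvT y := by
  unfold AvT
  rw [← integral_add (integrable_N1 x) (integrable_N1 y)]
  apply integral_mono (integrable_N1 _) ((integrable_N1 x).add (integrable_N1 y))
  intro ξ
  simp only
  rw [act_add]
  exact N1_add _ _

theorem AvT_smul (c : ℝ) (x : X) : AvT (c • x) = |c| * AvT x := by
  unfold AvT
  rw [← integral_const_mul]
  congr 1
  funext ξ
  rw [act_smul, N1_smul]

theorem norm_le_AvT (x : X) : ‖x‖ ≤ AvT x := by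
  have : ∫ _ξ : Idx → ℝ, ‖x‖ ∂(PP Idx) ≤ AvT x :=
    integral_mono (integrable_const _) (integrable_N1 x) fun ξ =>
      (norm_le_act ξ x).trans (norm_le_N1 _)
  simpa using this

theorem AvT_le (x : X) : AvT x ≤ 4 * ‖x‖ := by
  have : AvT x ≤ ∫ _ξ : Idx → ℝ, 4 * ‖x‖ ∂(PP Idx) :=
    integral_mono (integrable_N1 x) (integrable_const _) fun ξ => N1_act_le ξ x
  simpa using this

theorem isNrm_AvT : IsNrm AvT 4 := ⟨by norm_num, AvT_add, AvT_smul, norm_le_AvT, AvT_le⟩

/-! ### No kinks -/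

theorem convex_line (y : X) (c : Idx) :
    ConvexOn ℝ Set.univ (fun u : ℝ => N1 (y + u • bas c)) := by
  refine ⟨convex_univ, ?_⟩
  intro s _ t _ a b ha hb hab
  simp only [smul_eq_mul]
  have e : y + (a * s + b * t) • bas c = a • (y + s • bas c) + b • (y + t • bas c) := by
    have : y = a • y + b • y := by rw [← add_smul, hab, one_smul]
    rw [smul_add, smul_add, smul_smul, smul_smul, add_smul]
    nth_rewrite 1 [this]
    abel
  rw [e]
  refine (N1_add _ _).trans ?_
  rw [N1_smul, N1_smul, abs_of_nonneg ha, abs_of_nonneg hb]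

theorem noKink_zero {y : X} (hy : y ≠ 0) {c : Idx} (hc : y c = 0) :
    NoKinkAt (fun u : ℝ => N1 (y + u • bas c)) 0 := by
  obtain ⟨h0, hh0, k, hk, hbound⟩ := N1_zero_dir hy hc
  unfold NoKinkAt
  have h1 : Tendsto (fun h : ℝ => 2 * k * h) (𝓝[>] 0) (𝓝 0) := by
    have : Tendsto (fun h : ℝ => 2 * k * h) (𝓝 0) (𝓝 (2 * k * 0)) := tendsto_id.const_mul _
    rw [mul_zero] at this
    exact this.mono_left nhdsWithin_le_nhds
  have e0 : ∀ᶠ h : ℝ in 𝓝[>] 0, h ≤ h0 :=
    (eventually_le_nhds hh0).filter_mono nhdsWithin_le_nhds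
  refine tendsto_of_tendsto_of_tendsto_of_le_of_le' tendsto_const_nhds h1 ?_ ?_
  · filter_upwards [self_mem_nhdsWithin] with h hh
    have hh' : (0:ℝ) < h := hh
    exact div_nonneg (kink_nonneg (convex_line y c) (Set.mem_univ _) (Set.mem_univ _)) hh'.le
  · filter_upwards [self_mem_nhdsWithin, e0] with h hh hle
    have hh' : (0:ℝ) < h := hh
    have b1 := hbound h hh' hle
    have b2 : N1 (y + (-h) • bas c) = N1 (y + h • bas c) := by
      apply le_antisymm
      · apply N1_mono
        intro s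
        by_cases hs : s = c
        · subst hs
          simp [bas_self, hc]
        · simp [bas_ne hs]
      · apply N1_mono
        intro s
        by_cases hs : s = c
        · subst hs
          simp [bas_self, hc]
        · simp [bas_ne hs]
    simp only [zero_add, zero_sub, zero_smul, add_zero]
    rw [b2, div_le_iff₀ hh']
    nlinarith

theorem act_update (ξ : Idx → ℝ) (c : Idx) (x : X) (r : ℝ) :
    act (Function.update ξ c r) x = act ξ x + ((cl r - cl (ξ c)) * x c) • bas c := by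
  apply X.ext
  intro s
  rw [X.add_apply, X.smul_apply, act_apply, act_apply]
  unfold wt
  by_cases hs : s = c
  · subst hs
    rw [Function.update_self, bas_self]
    ring
  · rw [Function.update_of_ne hs, bas_ne hs]
    ring

theorem ae_noKink {x : X} {c : Idx} (hc : x c ≠ 0) :
    ∀ᵐ ξ ∂(PP Idx), NoKinkAt (fun u : ℝ => N1 (act ξ x + u • bas c)) 0 := by
  classical
  have hmono : ∀ ξ : Idx → ℝ, Monotone fun r => N1 (act (Function.update ξ c r) x) := by
    intro ξ r r' hr
    apply N1_mono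
    intro s
    rw [act_apply, act_apply, abs_mul, abs_mul]
    apply mul_le_mul_of_nonneg_right _ (abs_nonneg _)
    rw [abs_of_nonneg (zero_le_one.trans (wt_ge _ s)), abs_of_nonneg (zero_le_one.trans (wt_ge _ s))]
    unfold wt
    by_cases hs : s = c
    · subst hs
      rw [Function.update_self, Function.update_self]
      linarith [cl_mono hr]
    · rw [Function.update_of_ne hs, Function.update_of_ne hs]
  filter_upwards [ae_quot (measurable_N1_act x) c hmono, ae_coord c] with ξ hq hξ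
  have hpos : 0 < |x c| := abs_pos.mpr hc
  apply noKink_of_seq (convex_line (act ξ x) c) Filter.univ_mem
    (u := fun n : ℕ => |x c| * (1 / ((n : ℝ) + 1))) (fun n => by positivity)
  · have := (tendsto_one_div_add_atTop_nhds_zero_nat (𝕜 := ℝ)).const_mul |x c|
    rwa [mul_zero] at this
  · have h1 := hq.div_const |x c|
    rw [zero_div] at h1
    refine h1.congr' ?_
    have tp : Tendsto (fun n : ℕ => ξ c + 1 / ((n : ℝ) + 1)) atTop (𝓝 (ξ c)) := by
      have := (tendsto_const_nhds (x := ξ c)).add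
        (tendsto_one_div_add_atTop_nhds_zero_nat (𝕜 := ℝ))
      rwa [add_zero] at this
    have tn : Tendsto (fun n : ℕ => ξ c - 1 / ((n : ℝ) + 1)) atTop (𝓝 (ξ c)) := by
      have := (tendsto_const_nhds (x := ξ c)).sub
        (tendsto_one_div_add_atTop_nhds_zero_nat (𝕜 := ℝ))
      rwa [sub_zero] at this
    filter_upwards [tp.eventually (Icc_mem_nhds hξ.1 hξ.2),
      tn.eventually (Icc_mem_nhds hξ.1 hξ.2)] with n hn1 hn2
    unfold quot
    simp only [act_update]
    rw [cl_eq hn1.1 hn1.2, cl_eq hn2.1 hn2.2, cl_eq hξ.1.le hξ.2.le]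
    have e1 : (ξ c + 1 / ((n : ℝ) + 1) - ξ c) * x c = (1 / ((n : ℝ) + 1)) * x c := by ring
    have e2 : (ξ c - 1 / ((n : ℝ) + 1) - ξ c) * x c = -((1 / ((n : ℝ) + 1)) * x c) := by ring
    rw [e1, e2]
    simp only [zero_add, zero_sub, zero_smul, add_zero]
    rw [div_div, mul_comm (1 / ((n : ℝ) + 1)) |x c|]
    congr 1
    rcases abs_cases (x c) with ⟨h2, _⟩ | ⟨h2, _⟩
    · rw [h2, mul_comm (1 / ((n : ℝ) + 1)) (x c)]
    · rw [h2]
      have e3 : -x c * (1 / ((n : ℝ) + 1)) = -(1 / ((n : ℝ) + 1) * x c) := by ring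
      rw [e3, neg_neg]
      ring

theorem ae_noKink_all {x : X} (hx : x ≠ 0) (c : Idx) :
    ∀ᵐ ξ ∂(PP Idx), NoKinkAt (fun u : ℝ => N1 (act ξ x + u • bas c)) 0 := by
  by_cases hc : x c = 0
  · refine Eventually.of_forall fun ξ => ?_
    apply noKink_zero (act_ne_zero ξ hx)
    rw [act_apply, hc, mul_zero]
  · exact ae_noKink hc

/-- **The averaged norm has no kinks in the directions of the basis vectors.** -/
theorem NK_AvT {x : X} (hx : x ≠ 0) (c : Idx) : NK AvT x (bas c) := by
  unfold NK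
  set κ : ℝ → (Idx → ℝ) → ℝ := fun t ξ =>
    (N1 (act ξ (x + t • bas c)) + N1 (act ξ (x - t • bas c)) - 2 * N1 (act ξ x)) / t with hκ
  have hint : ∀ t : ℝ, kk AvT x (bas c) t = ∫ ξ, κ t ξ ∂(PP Idx) := by
    intro t
    simp only [hκ]
    rw [integral_div]
    unfold kk
    congr 1
    have i1 := integral_sub ((integrable_N1 (x + t • bas c)).add (integrable_N1 (x - t • bas c)))
      ((integrable_N1 x).const_mul 2)
    have i2 := integral_add (integrable_N1 (x + t • bas c)) (integrable_N1 (x - t • bas c))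
    have i3 : ∫ ξ, 2 * N1 (act ξ x) ∂(PP Idx) = 2 * ∫ ξ, N1 (act ξ x) ∂(PP Idx) :=
      integral_const_mul _ _
    simp only [Pi.add_apply] at i1 i2
    rw [i1, i2, i3]
    rfl
  have hfun : kk AvT x (bas c) = fun t => ∫ ξ, κ t ξ ∂(PP Idx) := funext hint
  rw [hfun]
  have main : Tendsto (fun t => ∫ ξ, κ t ξ ∂(PP Idx)) (𝓝[>] 0)
      (𝓝 (∫ _ξ : Idx → ℝ, (0:ℝ) ∂(PP Idx))) := ?_
  · simpa using main
  have hact : ∀ (t : ℝ) (ξ : Idx → ℝ),
      act ξ (x + t • bas c) = act ξ x + (wt ξ c * t) • bas c := by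
    intro t ξ
    rw [act_add, act_smul, act_bas, smul_smul, mul_comm t]
  have hact' : ∀ (t : ℝ) (ξ : Idx → ℝ),
      act ξ (x - t • bas c) = act ξ x + (-(wt ξ c * t)) • bas c := by
    intro t ξ
    rw [act_sub, act_smul, act_bas, smul_smul, mul_comm t, neg_smul, sub_eq_add_neg]
  apply tendsto_integral_filter_of_dominated_convergence (fun _ => 8)
  · refine Eventually.of_forall fun t => ?_
    exact ((((measurable_N1_act (x + t • bas c)).add (measurable_N1_act (x - t • bas c))).sub
      ((measurable_N1_act x).const_mul 2)).div_const t).aestronglyMeasurable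
  · filter_upwards [self_mem_nhdsWithin] with t ht0
    have ht0' : (0:ℝ) < t := ht0
    refine Eventually.of_forall fun ξ => ?_
    simp only [hκ]
    have h1 := abs_N1_sub_le (act ξ (x + t • bas c)) (act ξ x)
    have h2 := abs_N1_sub_le (act ξ (x - t • bas c)) (act ξ x)
    have h3 : ‖act ξ (x + t • bas c) - act ξ x‖ ≤ 2 * t := by
      rw [← act_sub]
      refine (norm_act_le ξ _).trans ?_
      rw [add_sub_cancel_left, norm_smul, norm_bas, Real.norm_of_nonneg ht0'.le, mul_one]
    have h4 : ‖act ξ (x - t • bas c) - act ξ x‖ ≤ 2 * t := by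
      rw [← act_sub]
      refine (norm_act_le ξ _).trans ?_
      have : x - t • bas c - x = -(t • bas c) := by abel
      rw [this, norm_neg, norm_smul, norm_bas, Real.norm_of_nonneg ht0'.le, mul_one]
    rw [Real.norm_eq_abs, abs_div, abs_of_pos ht0', div_le_iff₀ ht0']
    rw [abs_le] at h1 h2 ⊢
    constructor <;> linarith [h1.1, h1.2, h2.1, h2.2]
  · exact integrable_const _
  · filter_upwards [ae_noKink_all hx c] with ξ hξ
    have hw : 0 < wt ξ c := lt_of_lt_of_le one_pos (wt_ge ξ c)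
    have h1 := (hξ.comp (tendsto_mul_pos hw)).const_mul (wt ξ c)
    rw [mul_zero] at h1
    refine h1.congr' ?_
    filter_upwards [self_mem_nhdsWithin] with t ht
    have ht' : (0:ℝ) < t := ht
    simp only [Function.comp, hκ, hact, hact', zero_add, zero_sub, zero_smul, add_zero]
    field_simp

/-- **The averaged norm is Gateaux differentiable.** -/
theorem gateaux_AvT {x : X} (hx : x ≠ 0) :
    ∃ L : X →L[ℝ] ℝ, ∀ h : X, HasDerivAt (fun t : ℝ => AvT (x + t • h)) (L h) 0 :=
  gateaux isNrm_AvT hx (S := Set.range bas) (by rintro _ ⟨c, rfl⟩; exact NK_AvT hx c) dense_bas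

end Pool.Agent.Helper570.Troy
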