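import Pool.Agent.Helper570.Troy.Space

/-!
No equivalent norm on `X` has a strictly convex dual norm.
-/

open Filter Topology

namespace Pool.Agent.Helper570.Troy

/-- The finite linear combination of coordinates. -/
noncomputable def pair (F : Finset Idx) (θ : Idx → ℝ) (x : X) : ℝ := ∑ s ∈ F, θ s * x s

theorem abs_pair_le {F : Finset Idx} (hF : AA F) {θ : Idx → ℝ} (hθ : ∀ s, |θ s| ≤ 1) (x : X) :
    |pair F θ x| ≤ ‖x‖ := by
  calc |pair F θ x| ≤ ∑ s ∈ F, |θ s * x s| := Finset.abs_sum_le_sum_abs _ _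
    _ ≤ ∑ s ∈ F, |x s| := by
        apply Finset.sum_le_sum
        intro s _
        rw [abs_mul]
        exact mul_le_of_le_one_left (abs_nonneg _) (hθ s)
    _ ≤ ‖x‖ := x.sum_le hF

theorem pair_add (F : Finset Idx) (θ : Idx → ℝ) (x y : X) :
    pair F θ (x + y) = pair F θ x + pair F θ y := by
  unfold pair
  rw [← Finset.sum_add_distrib]
  apply Finset.sum_congr rfl
  intro s _
  rw [X.add_apply]; ring

theorem pair_smul (F : Finset Idx) (θ : Idx → ℝ) (c : ℝ) (x : X) :
    pair F θ (c • x) = c * pair F θ x := by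
  unfold pair
  rw [Finset.mul_sum]
  apply Finset.sum_congr rfl
  intro s _
  rw [X.smul_apply]; ring

theorem pair_neg (F : Finset Idx) (θ : Idx → ℝ) (x : X) : pair F θ (-x) = -pair F θ x := by
  have := pair_smul F θ (-1) x
  simpa using this

/-- An equivalent norm. -/
structure EqN (M : X → ℝ) (c C : ℝ) : Prop where
  cpos : 0 < c
  Cpos : 0 < C
  add : ∀ f g, M (f + g) ≤ M f + M g
  smul : ∀ (a : ℝ) f, M (a • f) = |a| * M f
  ge : ∀ f, c * ‖f‖ ≤ M f
  le : ∀ f, M f ≤ C * ‖f‖

section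
variable {M : X → ℝ} {c C : ℝ}

theorem EqN.nonneg (h : EqN M c C) (f : X) : 0 ≤ M f :=
  (mul_nonneg h.cpos.le (norm_nonneg f)).trans (h.ge f)

theorem EqN.neg (h : EqN M c C) (f : X) : M (-f) = M f := by
  have := h.smul (-1) f
  simpa using this

theorem EqN.pos (h : EqN M c C) {f : X} (hf : f ≠ 0) : 0 < M f :=
  (mul_pos h.cpos (norm_pos_iff.mpr hf)).trans_le (h.ge f)

theorem EqN.sub_le (h : EqN M c C) (f g : X) : M f - M g ≤ C * ‖f - g‖ := by
  have h1 := h.add (f - g) g
  rw [sub_add_cancel] at h1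
  have h2 := h.le (f - g)
  linarith

/-- The combinations of the coordinates in `F` with coefficients in `[-1, 1]` have dual norm at
most `r`. -/
def Bd (M : X → ℝ) (F : Finset Idx) (r : ℝ) : Prop :=
  ∀ θ : Idx → ℝ, (∀ s, |θ s| ≤ 1) → ∀ x, pair F θ x ≤ r * M x

theorem Bd.abs (h : EqN M c C) {F : Finset Idx} {r : ℝ} (hB : Bd M F r) {θ : Idx → ℝ}
    (hθ : ∀ s, |θ s| ≤ 1) (x : X) : |pair F θ x| ≤ r * M x := by
  rw [abs_le]
  constructor
  · have := hB θ hθ (-x)
    rw [pair_neg, h.neg] at this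
    linarith
  · exact hB θ hθ x

/-- The set of the essential bounds. -/
def RR (M : X → ℝ) : Set ℝ :=
  {r | ∃ C0 : Set Idx, C0.Countable ∧ ∀ F, AA F → (∀ s ∈ F, s ∉ C0) → Bd M F r}

theorem RR_nonempty (h : EqN M c C) : (RR M).Nonempty := by
  refine ⟨1 / c, ∅, Set.countable_empty, ?_⟩
  intro F hF _ θ hθ x
  have h1 := abs_pair_le hF hθ x
  have h2 := h.ge x
  have h3 := le_abs_self (pair F θ x)
  rw [one_div, inv_mul_eq_div, le_div_iff₀ h.cpos]
  nlinarith [h.cpos]

theorem RR_ge (h : EqN M c C) {r : ℝ} (hr : r ∈ RR M) : 1 / C ≤ r := by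
  obtain ⟨C0, hC0, hB⟩ := hr
  obtain ⟨γ, hγ⟩ : ∃ γ : Idx, γ ∉ C0 := by
    by_contra hcon
    push Not at hcon
    have : C0 = Set.univ := Set.eq_univ_of_forall hcon
    rw [this] at hC0
    exact not_countable (Set.countable_univ_iff.mp hC0)
  have h1 := hB {γ} (Adm.singleton _ _) (by
    intro s hs; rw [Finset.mem_singleton] at hs; rw [hs]; exact hγ) (fun _ => 1)
    (fun _ => by simp) (bas γ)
  unfold pair at h1
  rw [Finset.sum_singleton, bas_self, mul_one] at h1
  have h2 := h.le (bas γ)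
  rw [norm_bas, mul_one] at h2
  have h3 := h.nonneg (bas γ)
  have hr0 : 0 < r := by
    by_contra hn
    push Not at hn
    nlinarith
  rw [div_le_iff₀ h.Cpos]
  nlinarith

theorem RR_bdd (h : EqN M c C) : BddBelow (RR M) := ⟨1 / C, fun _ hr => RR_ge h hr⟩

/-- The essential supremum. -/
noncomputable def UU (M : X → ℝ) : ℝ := sInf (RR M)

theorem UU_pos (h : EqN M c C) : 0 < UU M := by
  have h1 : 1 / C ≤ UU M := le_csInf (RR_nonempty h) fun _ hr => RR_ge h hr
  exact (one_div_pos.mpr h.Cpos).trans_le h1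

theorem UU_mem (h : EqN M c C) : UU M ∈ RR M := by
  obtain ⟨u, _, hu2, hu3⟩ := exists_seq_tendsto_sInf (RR_nonempty h) (RR_bdd h)
  choose C0 hC0 hB using hu3
  refine ⟨⋃ n, C0 n, Set.countable_iUnion hC0, ?_⟩
  intro F hF hd θ hθ x
  have h1 : Tendsto (fun n => u n * M x) atTop (𝓝 (UU M * M x)) := hu2.mul_const _
  refine ge_of_tendsto' h1 fun n => ?_
  exact hB n F hF (fun s hs hsC => hd s hs (Set.mem_iUnion.mpr ⟨n, hsC⟩)) θ hθ x

theorem large_of_lt (h : EqN M c C) {C0 : Set Idx} (hC0 : C0.Countable) {r : ℝ} (hr : r < UU M) :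
    Large fun F => AA F ∧ (∀ s ∈ F, s ∉ C0) ∧ ¬ Bd M F r := by
  intro C1 hC1
  by_contra hcon
  push Not at hcon
  have h1 : r ∈ RR M := by
    refine ⟨C0 ∪ C1, hC0.union hC1, ?_⟩
    intro F hF hd
    by_contra hB
    obtain ⟨s, hs, hs1⟩ := hcon F ⟨hF, fun s hs h => hd s hs (Or.inl h), hB⟩
    exact hd s hs (Or.inr hs1)
  exact absurd (csInf_le (RR_bdd h) h1) (not_le.mpr hr)

/-- Norming vectors can be taken finitely supported. -/
theorem exists_norming (h : EqN M c C) {F : Finset Idx} (hF : AA F) {r : ℝ} (hr : 0 ≤ r)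
    (hB : ¬ Bd M F r) :
    ∃ (θ : Idx → ℝ) (x : X) (Z : Finset Idx), (∀ s, |θ s| ≤ 1) ∧ (∀ s, s ∉ Z → x s = 0) ∧
      r * M x < pair F θ x := by
  unfold Bd at hB
  push Not at hB
  obtain ⟨θ, hθ, x, hx⟩ := hB
  set d := pair F θ x - r * M x with hd
  have hd0 : 0 < d := by rw [hd]; linarith
  obtain ⟨Z, y, hy, hxy⟩ := exists_finite_approx x (ε := d / (2 * (1 + r * C)))
    (by have := h.Cpos; positivity)
  refine ⟨θ, y, Z, hθ, hy, ?_⟩
  have h1 := abs_pair_le hF hθ (y - x)
  have h2 : pair F θ y = pair F θ x + pair F θ (y - x) := by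
    rw [← pair_add]
    congr 1
    abel
  have h3 := h.sub_le y x
  rw [norm_sub_rev] at hxy
  have h4 := neg_abs_le (pair F θ (y - x))
  have h5 : r * (M y - M x) ≤ r * (C * ‖y - x‖) := mul_le_mul_of_nonneg_left h3 hr
  have h6 : (1 + r * C) * ‖y - x‖ < d := by
    have hpos : 0 < 1 + r * C := by have := h.Cpos; positivity
    calc (1 + r * C) * ‖y - x‖ < (1 + r * C) * (d / (2 * (1 + r * C))) :=
          mul_lt_mul_of_pos_left hxy hpos
      _ = d / 2 := by field_simp
      _ < d := half_lt_self hd0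
  nlinarith

/-- The recursion for the coefficients. -/
noncomputable def th (S F : ℕ → Finset Idx) (θ : ℕ → Idx → ℝ) (x : ℕ → X) : ℕ → Idx → ℝ
  | 0 => fun _ => 0
  | 1 => fun _ => 0
  | (i + 2) => open Classical in fun s =>
      if s ∈ S (i + 1) then
        (if 0 ≤ pair (F (i + 1)) (th S F θ x (i + 1)) (x i) then 1 else -1) * θ i s
      else th S F θ x (i + 1) s

theorem exists_ulim {a : ℕ → ℝ} {B : ℝ} (h : ∀ j, |a j| ≤ B) :
    ∃ L : ℝ, Tendsto a (Filter.hyperfilter ℕ : Filter ℕ) (𝓝 L) := by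
  have hc : IsCompact (Set.Icc (-B) B) := isCompact_Icc
  obtain ⟨L, _, hL⟩ := hc.ultrafilter_le_nhds' ((Filter.hyperfilter ℕ).map a) (by
    rw [Ultrafilter.mem_map]
    refine Filter.mem_of_superset Filter.univ_mem ?_
    intro j _
    exact abs_le.mp (h j))
  exact ⟨L, hL⟩

theorem hyper_ge (n : ℕ) : ∀ᶠ j in (Filter.hyperfilter ℕ : Filter ℕ), n ≤ j :=
  Nat.hyperfilter_le_atTop (eventually_ge_atTop n)

/-- **The dual norm of an equivalent norm is never strictly convex.** -/
theorem exists_flat (h : EqN M c C) :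
    ∃ φ ψ : X →L[ℝ] ℝ, φ ≠ ψ ∧ (∀ x, φ x ≤ M x) ∧ (∀ x, ψ x ≤ M x) ∧
      ∀ r : ℝ, r < 1 → ∃ x : X, r * M x < (1 / 2) * (φ x + ψ x) := by
  classical
  obtain ⟨C0, hC0, hC0B⟩ := UU_mem h
  set U := UU M with hU
  have hUpos : 0 < U := UU_pos h
  set rr : ℕ → ℝ := fun i => U * (1 - 1 / ((i : ℝ) + 2)) with hrr
  have hfrac : ∀ i : ℕ, (1:ℝ) / ((i : ℝ) + 2) ≤ 1 := by
    intro i
    rw [div_le_one (by positivity)]
    have : (0:ℝ) ≤ i := Nat.cast_nonneg i
    linarith
  have hrr0 : ∀ i, 0 ≤ rr i := fun i => mul_nonneg hUpos.le (by linarith [hfrac i])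
  have hrrU : ∀ i, rr i < U := by
    intro i
    have h1 : (0:ℝ) < 1 / ((i : ℝ) + 2) := by positivity
    simp only [hrr]
    nlinarith
  have hsz : ∀ i, ∃ m, Large fun F => (AA F ∧ (∀ s ∈ F, s ∉ C0) ∧ ¬ Bd M F (rr i)) ∧
      F.card = m := by
    intro i
    have := large_of_lt h hC0 (hrrU i)
    apply Large.exists_of_iUnion
    apply this.mono
    intro S hS
    exact ⟨S.card, hS, rfl⟩
  choose m hm using hsz
  let P : ℕ → Finset Idx → Prop := fun i S => match i with
    | 0 => ∃ δ, δ ∉ C0 ∧ S = {δ}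
    | (i + 1) => (AA S ∧ (∀ s ∈ S, s ∉ C0) ∧ ¬ Bd M S (rr i)) ∧ S.card = m i
  have hP : ∀ j, Large (P j) := by
    intro j
    cases j with
    | zero =>
      intro C1 hC1
      obtain ⟨δ, hδ⟩ : ∃ δ : Idx, δ ∉ C0 ∪ C1 := by
        by_contra hcon
        push Not at hcon
        have h1 : C0 ∪ C1 = Set.univ := Set.eq_univ_of_forall hcon
        have h2 := hC0.union hC1
        rw [h1] at h2
        exact not_countable (Set.countable_univ_iff.mp h2)
      refine ⟨{δ}, ⟨δ, fun h' => hδ (Or.inl h'), rfl⟩, ?_⟩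
      intro s hs h'
      rw [Finset.mem_singleton] at hs
      rw [hs] at h'
      exact hδ (Or.inr h')
    | succ i => exact hm i
  let K : ℕ → ℕ := fun i => Nat.rec 1 (fun i k => k + m i) i
  have hnv : ∀ i : ℕ, ∀ S : Finset Idx, AA S → ¬ Bd M S (rr i) →
      ∃ (θ : Idx → ℝ) (x : X) (Z : Finset Idx), (∀ s, |θ s| ≤ 1) ∧ (∀ s, s ∉ Z → x s = 0) ∧
        rr i * M x < pair S θ x := fun i S hS hB => exists_norming h hS (hrr0 i) hB
  choose! nθ nx nZ hn1 hn2 hn3 using hnv
  let D : Finset Idx → Set Idx := fun F => ⋃ i : ℕ, ⋃ S ∈ F.powerset, (nZ i S : Set Idx)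
  have hD : ∀ F, (D F).Countable := fun F => Set.countable_iUnion fun i =>
    Set.Countable.biUnion F.powerset.countable_toSet fun S _ => (nZ i S).countable_toSet
  obtain ⟨S, F, hF0, hFs, hsel⟩ := select ee_inj idx_countable hP K D hD
  obtain ⟨δ, hδ, hS0⟩ := (hsel 0).1
  have hSs : ∀ i, (AA (S (i + 1)) ∧ (∀ s ∈ S (i + 1), s ∉ C0) ∧ ¬ Bd M (S (i + 1)) (rr i)) ∧
      (S (i + 1)).card = m i := fun i => (hsel (i + 1)).1
  have hcard : ∀ i, (F (i + 1)).card ≤ K i := by
    intro i
    induction i with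
    | zero =>
      rw [hFs, hF0, Finset.empty_union, hS0, Finset.card_singleton]
      exact le_refl 1
    | succ i ih =>
      rw [hFs]
      refine (Finset.card_union_le _ _).trans ?_
      rw [(hSs i).2]
      exact Nat.add_le_add_right ih _
  have hAS : ∀ i, AA (S i) := by
    intro i
    cases i with
    | zero => rw [hS0]; exact Adm.singleton _ _
    | succ i => exact (hSs i).1.1
  have hAA : ∀ i, AA (F i) := by
    intro i
    induction i with
    | zero => rw [hF0]; exact Adm.empty _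
    | succ i ih =>
      rw [hFs]
      apply Adm.union ih (hAS i) (hsel i).2.1
      rw [← hFs]
      exact hcard i
  have hav : ∀ i, ∀ s ∈ F i, s ∉ C0 := by
    intro i
    induction i with
    | zero => intro s hs; rw [hF0] at hs; exact absurd hs (Finset.notMem_empty s)
    | succ i ih =>
      intro s hs
      rw [hFs, Finset.mem_union] at hs
      rcases hs with hs | hs
      · exact ih s hs
      · cases i with
        | zero => rw [hS0, Finset.mem_singleton] at hs; rw [hs]; exact hδ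
        | succ i => exact (hSs i).1.2.1 s hs
  have hdisj : ∀ i, ∀ s ∈ F i, s ∉ S i := by
    intro i s hs hs'
    exact absurd ((hsel i).2.1 s hs s hs').1 (lt_irrefl s)
  have hFstep : ∀ i, F i ⊆ F (i + 1) := by
    intro i; rw [hFs]; exact Finset.subset_union_left
  have hFmono : ∀ i j, i ≤ j → F i ⊆ F j := by
    intro i j hij
    induction j, hij using Nat.le_induction with
    | base => exact subset_rfl
    | succ j _ ih => exact ih.trans (hFstep j)
  have hSF : ∀ i, S i ⊆ F (i + 1) := by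
    intro i; rw [hFs]; exact Finset.subset_union_right
  set xx : ℕ → X := fun i => nx i (S (i + 1)) with hxx
  set θθ : ℕ → Idx → ℝ := fun i => nθ i (S (i + 1)) with hθθ
  have hθ1 : ∀ i s, |θθ i s| ≤ 1 := fun i => hn1 i _ (hSs i).1.1 (hSs i).1.2.2
  have hx1 : ∀ i, rr i * M (xx i) < pair (S (i + 1)) (θθ i) (xx i) :=
    fun i => hn3 i _ (hSs i).1.1 (hSs i).1.2.2
  have hvan : ∀ i j, i + 2 ≤ j → ∀ s ∈ S j, xx i s = 0 := by
    intro i j hij s hs
    apply hn2 i _ (hSs i).1.1 (hSs i).1.2.2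
    intro hZ
    apply (hsel j).2.2 s hs
    refine Set.mem_iUnion.mpr ⟨i, Set.mem_biUnion (x := S (i + 1)) ?_ hZ⟩
    rw [Finset.mem_coe, Finset.mem_powerset]
    exact (hSF (i + 1)).trans (hFmono _ _ hij)
  set T : ℕ → Idx → ℝ := th S F θθ xx with hT
  have hT2 : ∀ i s, T (i + 2) s = if s ∈ S (i + 1) then
      (if 0 ≤ pair (F (i + 1)) (T (i + 1)) (xx i) then 1 else -1) * θθ i s else T (i + 1) s := by
    intro i s
    simp only [hT, th]
  have hT1 : ∀ i s, |T i s| ≤ 1 := by
    intro i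
    induction i with
    | zero => intro s; simp [hT, th]
    | succ i ih =>
      cases i with
      | zero => intro s; simp [hT, th]
      | succ i =>
        intro s
        rw [hT2]
        split_ifs
        · rw [one_mul]; exact hθ1 i s
        · rw [neg_one_mul, abs_neg]; exact hθ1 i s
        · exact ih s
  have hδF : ∀ i, δ ∈ F (i + 1) := by
    intro i
    apply hFmono 1 (i + 1) (by omega)
    apply hSF 0
    rw [hS0]
    exact Finset.mem_singleton_self δ
  have hTδ : ∀ i, T i δ = 0 := by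
    intro i
    induction i with
    | zero => simp [hT, th]
    | succ i ih =>
      cases i with
      | zero => simp [hT, th]
      | succ i =>
        rw [hT2, if_neg (hdisj (i + 1) δ (hδF i))]
        exact ih
  have hstep : ∀ i x, pair (F (i + 2)) (T (i + 2)) x = pair (F (i + 1)) (T (i + 1)) x +
      (if 0 ≤ pair (F (i + 1)) (T (i + 1)) (xx i) then 1 else -1) *
        pair (S (i + 1)) (θθ i) x := by
    intro i x
    rw [hFs (i + 1)]
    unfold pair
    rw [Finset.sum_union (Finset.disjoint_left.mpr (hdisj (i + 1)))]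
    congr 1
    · apply Finset.sum_congr rfl
      intro s hs
      rw [hT2, if_neg (hdisj (i + 1) s hs)]
    · rw [Finset.mul_sum]
      apply Finset.sum_congr rfl
      intro s hs
      rw [hT2, if_pos hs]
      unfold pair
      ring
  have hval : ∀ i, rr i * M (xx i) < |pair (F (i + 2)) (T (i + 2)) (xx i)| := by
    intro i
    have h1 := hx1 i
    have h2 : 0 ≤ rr i * M (xx i) := mul_nonneg (hrr0 i) (h.nonneg _)
    rw [hstep]
    split_ifs with h3
    · rw [one_mul, abs_of_nonneg (by linarith)]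
      linarith
    · push Not at h3
      rw [abs_of_neg (by linarith)]
      linarith
  have hconst : ∀ i j, i + 2 ≤ j →
      pair (F j) (T j) (xx i) = pair (F (i + 2)) (T (i + 2)) (xx i) := by
    intro i j hij
    induction j, hij using Nat.le_induction with
    | base => rfl
    | succ j hj ih =>
      obtain ⟨k, rfl⟩ : ∃ k, j = k + 1 := ⟨j - 1, by omega⟩
      rw [hstep, ih]
      have : pair (S (k + 1)) (θθ k) (xx i) = 0 := by
        unfold pair
        apply Finset.sum_eq_zero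
        intro s hs
        rw [hvan i (k + 1) hj s hs, mul_zero]
      rw [this, mul_zero, add_zero]
  have hbd : ∀ j, ∀ b : ℝ, |b| ≤ 1 → ∀ x : X,
      |pair (F (j + 1)) (T (j + 1)) x + b * x δ| ≤ U * M x := by
    intro j b hb x
    have e : pair (F (j + 1)) (T (j + 1)) x + b * x δ =
        pair (F (j + 1)) (fun s => if s = δ then b else T (j + 1) s) x := by
      unfold pair
      rw [← Finset.add_sum_erase _ _ (hδF j), ← Finset.add_sum_erase _ _ (hδF j), hTδ]
      beta_reduce
      rw [if_pos rfl]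
      have : ∑ s ∈ (F (j + 1)).erase δ, (if s = δ then b else T (j + 1) s) * x s =
          ∑ s ∈ (F (j + 1)).erase δ, T (j + 1) s * x s := by
        apply Finset.sum_congr rfl
        intro s hs
        rw [if_neg (Finset.ne_of_mem_erase hs)]
      rw [this]
      ring
    rw [e]
    apply Bd.abs h (hC0B _ (hAA _) (hav _))
    intro s
    split_ifs
    · exact hb
    · exact hT1 _ s
  have hbd0 : ∀ j, ∀ x : X, |pair (F j) (T j) x| ≤ U * M x := fun j x =>
    Bd.abs h (hC0B _ (hAA _) (hav _)) (hT1 j) x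
  have hlim : ∀ x : X, ∃ L : ℝ, Tendsto (fun j => pair (F j) (T j) x)
      (Filter.hyperfilter ℕ : Filter ℕ) (𝓝 L) := fun x => exists_ulim fun j => hbd0 j x
  choose f hf using hlim
  have hfadd : ∀ x y, f (x + y) = f x + f y := by
    intro x y
    refine tendsto_nhds_unique (hf (x + y)) ?_
    have := (hf x).add (hf y)
    refine this.congr fun j => ?_
    rw [pair_add]
  have hfsmul : ∀ (a : ℝ) x, f (a • x) = a * f x := by
    intro a x
    refine tendsto_nhds_unique (hf (a • x)) ?_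
    have := (hf x).const_mul a
    refine this.congr fun j => ?_
    rw [pair_smul]
  have hfb : ∀ b : ℝ, |b| ≤ 1 → ∀ x : X, |f x + b * x δ| ≤ U * M x := by
    intro b hb x
    have h1 : Tendsto (fun j => |pair (F j) (T j) x + b * x δ|)
        (Filter.hyperfilter ℕ : Filter ℕ) (𝓝 |f x + b * x δ|) := ((hf x).add_const _).abs
    apply le_of_tendsto h1
    filter_upwards [hyper_ge 1] with j hj
    obtain ⟨k, rfl⟩ : ∃ k, j = k + 1 := ⟨j - 1, by omega⟩
    exact hbd k b hb x
  have hfx : ∀ i, f (xx i) = pair (F (i + 2)) (T (i + 2)) (xx i) := by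
    intro i
    refine tendsto_nhds_unique (hf (xx i)) ?_
    refine tendsto_const_nhds.congr' ?_
    filter_upwards [hyper_ge (i + 2)] with j hj
    exact (hconst i j hj).symm
  let fL : X →L[ℝ] ℝ := LinearMap.mkContinuous
    { toFun := f, map_add' := hfadd, map_smul' := fun a x => by
        rw [hfsmul]; rfl } (U * C) fun x => by
      have h1 := hfb 0 (by simp) x
      rw [zero_mul, add_zero] at h1
      have h2 := mul_le_mul_of_nonneg_left (h.le x) hUpos.le
      rw [Real.norm_eq_abs, mul_assoc]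
      exact h1.trans h2
  have hfL : ∀ x, fL x = f x := fun x => rfl
  refine ⟨U⁻¹ • (fL + coord δ), U⁻¹ • (fL - coord δ), ?_, ?_, ?_, ?_⟩
  · intro heq
    have h1 := congrArg (fun z : X →L[ℝ] ℝ => z (bas δ)) heq
    simp only [FunLike.coe_smul, FunLike.coe_add,
      FunLike.coe_sub, Pi.smul_apply, Pi.add_apply, Pi.sub_apply, coord_apply,
      bas_self, smul_eq_mul] at h1
    have h2 := mul_left_cancel₀ (inv_ne_zero hUpos.ne') h1
    linarith
  · intro x
    have h1 := (abs_le.mp (hfb 1 (by simp) x)).2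
    simp only [FunLike.coe_smul, FunLike.coe_add, Pi.smul_apply,
      Pi.add_apply, coord_apply, smul_eq_mul]
    rw [hfL, inv_mul_eq_div, div_le_iff₀ hUpos]
    linarith
  · intro x
    have h1 := (abs_le.mp (hfb (-1) (by simp) x)).2
    simp only [FunLike.coe_smul, FunLike.coe_sub, Pi.smul_apply,
      Pi.sub_apply, coord_apply, smul_eq_mul]
    rw [hfL, inv_mul_eq_div, div_le_iff₀ hUpos]
    linarith
  · intro r hr
    obtain ⟨i, hi⟩ := exists_nat_one_div_lt (sub_pos.mpr hr)
    have hi2 : r < 1 - 1 / ((i : ℝ) + 2) := by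
      have : (1:ℝ) / ((i : ℝ) + 2) ≤ 1 / ((i : ℝ) + 1) := by
        apply one_div_le_one_div_of_le (by positivity)
        linarith
      linarith
    have key : ∀ y : X, M y = M (xx i) → f y = |f (xx i)| →
        r * M y < 1 / 2 * ((U⁻¹ • (fL + coord δ)) y + (U⁻¹ • (fL - coord δ)) y) := by
      intro y hy1 hy2
      simp only [FunLike.coe_smul, FunLike.coe_add,
        FunLike.coe_sub, Pi.smul_apply, Pi.add_apply, Pi.sub_apply, coord_apply,
        smul_eq_mul]
      rw [hfL, hy2]
      have h1 := hval i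
      rw [← hfx] at h1
      have h2 : 1 / 2 * (U⁻¹ * (|f (xx i)| + y δ) + U⁻¹ * (|f (xx i)| - y δ)) =
          |f (xx i)| / U := by
        field_simp
        ring
      rw [h2, lt_div_iff₀ hUpos, hy1]
      have h3 : 0 ≤ M (xx i) := h.nonneg _
      have h4 : r * M (xx i) * U ≤ rr i * M (xx i) := by
        simp only [hrr]
        nlinarith [mul_nonneg hUpos.le h3]
      linarith
    rcases abs_cases (f (xx i)) with ⟨h2, _⟩ | ⟨h2, _⟩
    · exact ⟨xx i, key _ rfl h2.symm⟩
    · refine ⟨-xx i, key _ (h.neg _) ?_⟩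
      rw [h2]
      have := hfsmul (-1) (xx i)
      simpa using this

end

end Pool.Agent.Helper570.Troy
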