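import Mathlib

/-!
Admissible finite sets with respect to a two-place function `e`, large collections of finite sets,
and the selection of an increasing sequence of blocks whose union is admissible.
-/

namespace Pool.Agent.Helper570.Troy

variable {G : Type*} [LinearOrder G]

/-- Admissible finite sets: for `b` in `F` and each `n` there are at most `n` elements `a > b` of
`F` with `e b a = n`. -/
def Adm (e : G → G → ℕ) (F : Finset G) : Prop :=
  ∀ b ∈ F, ∀ n : ℕ, (F.filter fun a => b < a ∧ e b a = n).card ≤ n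

/-- The enumerations `e · a` of the initial segments are injective. -/
def EInj (e : G → G → ℕ) : Prop :=
  ∀ a b b' : G, b < a → b' < a → e b a = e b' a → b = b'

theorem Adm.subset {e : G → G → ℕ} {F F' : Finset G} (h : Adm e F) (hs : F' ⊆ F) : Adm e F' := by
  intro b hb n
  refine (Finset.card_le_card ?_).trans (h b (hs hb) n)
  intro a ha
  rw [Finset.mem_filter] at ha ⊢
  exact ⟨hs ha.1, ha.2⟩

theorem Adm.empty (e : G → G → ℕ) : Adm e ∅ := by
  intro b hb
  exact absurd hb (Finset.notMem_empty b)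

theorem Adm.singleton (e : G → G → ℕ) (c : G) : Adm e {c} := by
  intro b hb n
  have : (({c} : Finset G).filter fun a => b < a ∧ e b a = n) = ∅ := by
    apply Finset.filter_false_of_mem
    intro a ha
    rw [Finset.mem_singleton] at ha hb
    subst ha
    subst hb
    simp
  rw [this]
  simp

/-- All elements of `S` are above all elements of `F` and the labels are at least `k`. -/
def Cross (e : G → G → ℕ) (F S : Finset G) (k : ℕ) : Prop :=
  ∀ b ∈ F, ∀ a ∈ S, b < a ∧ k ≤ e b a

theorem Adm.union {e : G → G → ℕ} {F S : Finset G} {k : ℕ} (hF : Adm e F) (hS : Adm e S)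
    (hc : Cross e F S k) (hk : (F ∪ S).card ≤ k) : Adm e (F ∪ S) := by
  intro b hb n
  rw [Finset.mem_union] at hb
  by_cases hbF : b ∈ F
  · by_cases hn : n < k
    · refine (Finset.card_le_card ?_).trans (hF b hbF n)
      intro a ha
      rw [Finset.mem_filter, Finset.mem_union] at ha
      rw [Finset.mem_filter]
      rcases ha.1 with h | h
      · exact ⟨h, ha.2⟩
      · have := (hc b hbF a h).2
        rw [ha.2.2] at this
        exact absurd this (not_le.mpr hn)
    · exact ((Finset.card_filter_le _ _).trans hk).trans (not_lt.mp hn)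
  · have hbS : b ∈ S := hb.resolve_left hbF
    refine (Finset.card_le_card ?_).trans (hS b hbS n)
    intro a ha
    rw [Finset.mem_filter, Finset.mem_union] at ha
    rw [Finset.mem_filter]
    rcases ha.1 with h | h
    · exact absurd (hc a h b hbS).1 (not_lt.mpr ha.2.1.le)
    · exact ⟨h, ha.2⟩

/-! ### Large collections -/

/-- A collection of finite sets is large if every countable set is missed by a member. -/
def Large (P : Finset G → Prop) : Prop :=
  ∀ C : Set G, C.Countable → ∃ S, P S ∧ ∀ s ∈ S, s ∉ C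

omit [LinearOrder G] in
theorem Large.mono {P Q : Finset G → Prop} (h : Large P) (hPQ : ∀ S, P S → Q S) : Large Q := by
  intro C hC
  obtain ⟨S, h1, h2⟩ := h C hC
  exact ⟨S, hPQ S h1, h2⟩

omit [LinearOrder G] in
theorem Large.exists_of_iUnion {ι : Type*} [Countable ι] {P : ι → Finset G → Prop}
    (h : Large fun S => ∃ i, P i S) : ∃ i, Large (P i) := by
  by_contra hcon
  push Not at hcon
  have h1 : ∀ i, ∃ C : Set G, C.Countable ∧ ∀ S, P i S → ∃ s ∈ S, s ∈ C := by
    intro i
    have := hcon i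
    unfold Large at this
    push Not at this
    exact this
  choose C hC hP using h1
  obtain ⟨S, ⟨i, hi⟩, h2⟩ := h (⋃ i, C i) (Set.countable_iUnion hC)
  obtain ⟨s, hs, hsC⟩ := hP i S hi
  exact h2 s hs (Set.mem_iUnion.mpr ⟨i, hsC⟩)

omit [LinearOrder G] in
theorem Large.avoid {P : Finset G → Prop} (h : Large P) {D : Set G} (hD : D.Countable) :
    Large fun S => P S ∧ ∀ s ∈ S, s ∉ D := by
  intro C hC
  obtain ⟨S, h1, h2⟩ := h (C ∪ D) (hC.union hD)
  exact ⟨S, ⟨h1, fun s hs hd => h2 s hs (Or.inr hd)⟩, fun s hs hc => h2 s hs (Or.inl hc)⟩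

omit [LinearOrder G] in
theorem Large.seq {P : Finset G → Prop} (h : Large P) :
    ∃ T : ℕ → Finset G, (∀ n, P (T n)) ∧ ∀ m n, m < n → Disjoint (T m) (T n) := by
  classical
  apply exists_seq_of_forall_finset_exists (fun S => P S) (fun S S' => Disjoint S S')
  intro s _
  obtain ⟨S, h1, h2⟩ := h (⋃ S ∈ s, (S : Set G))
    (Set.Countable.biUnion s.countable_toSet fun S _ => S.countable_toSet)
  refine ⟨S, h1, ?_⟩
  intro S' hS'
  rw [Finset.disjoint_left]
  intro a ha ha'
  exact h2 a ha' (Set.mem_biUnion hS' ha)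

/-- Among large collections, few blocks are bad. -/
theorem good_block {e : G → G → ℕ} (he : EInj e) (hcount : ∀ a : G, (Set.Iic a).Countable)
    {P Q : Finset G → Prop} (hQ : Large Q) (k : ℕ) :
    ¬ Large fun S => P S ∧ ¬ Large fun S' => Q S' ∧ Cross e S S' k := by
  intro hbad
  obtain ⟨T, h1, h2⟩ := hbad.seq
  have h3 : ∀ n, ∃ C : Set G, C.Countable ∧ ∀ S', Q S' ∧ Cross e (T n) S' k → ∃ s ∈ S', s ∈ C := by
    intro n
    have := (h1 n).2
    unfold Large at this
    push Not at this
    exact this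
  choose C hC hCC using h3
  obtain ⟨S', h4, h5⟩ := hQ ((⋃ n, C n) ∪ ⋃ n, ⋃ b ∈ T n, Set.Iic b)
    ((Set.countable_iUnion hC).union (Set.countable_iUnion fun n =>
      Set.Countable.biUnion (T n).countable_toSet fun b _ => hcount b))
  have h6 : ∀ n, ∃ a ∈ S', ∃ b ∈ T n, b < a ∧ e b a < k := by
    intro n
    by_contra hcon
    push Not at hcon
    obtain ⟨s, hs, hsC⟩ := hCC n S' ⟨h4, fun b hb a ha => by
      have hba : b < a := by
        by_contra hab
        exact h5 a ha (Or.inr (Set.mem_iUnion.mpr ⟨n, Set.mem_biUnion hb (not_lt.mp hab)⟩))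
      exact ⟨hba, hcon a ha b hb hba⟩⟩
    exact h5 s hs (Or.inl (Set.mem_iUnion.mpr ⟨n, hsC⟩))
  choose a ha b hb hba hbk using h6
  let f : ℕ → S' × Fin k := fun n => (⟨a n, ha n⟩, ⟨e (b n) (a n), hbk n⟩)
  obtain ⟨m, n, hmn, hf⟩ := Finite.exists_ne_map_eq_of_infinite f
  have e1 : a m = a n := congrArg (fun z => (z.1 : G)) hf
  have e2 : e (b m) (a m) = e (b n) (a n) := congrArg (fun z => (z.2 : ℕ)) hf
  rw [e1] at e2
  have hbm := hba m
  rw [e1] at hbm
  have e3 := he (a n) (b m) (b n) hbm (hba n) e2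
  rcases lt_or_gt_of_ne hmn with h | h
  · exact Finset.disjoint_left.mp (h2 m n h) (hb m) (e3 ▸ hb n)
  · exact Finset.disjoint_left.mp (h2 n m h) (hb n) (e3 ▸ hb m)

theorem select_step {e : G → G → ℕ} (he : EInj e) (hcount : ∀ a : G, (Set.Iic a).Countable)
    {P : ℕ → Finset G → Prop} {K : ℕ → ℕ} {F : Finset G} {i : ℕ}
    (hgood : ∀ j, i ≤ j → Large fun S => P j S ∧ Cross e F S (K j)) {D : Set G}
    (hD : D.Countable) :
    ∃ S, (P i S ∧ Cross e F S (K i) ∧ ∀ s ∈ S, s ∉ D) ∧
      ∀ j, i + 1 ≤ j → Large fun S' => P j S' ∧ Cross e (F ∪ S) S' (K j) := by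
  by_contra hcon
  push Not at hcon
  have hL := (hgood i le_rfl).avoid hD
  have h1 : Large fun S => ∃ j : ℕ, ((P i S ∧ Cross e F S (K i)) ∧ ∀ s ∈ S, s ∉ D) ∧
      ¬ Large fun S' => (P (i + 1 + j) S' ∧ Cross e F S' (K (i + 1 + j))) ∧
        Cross e S S' (K (i + 1 + j)) := by
    apply hL.mono
    intro S hS
    obtain ⟨j, hj, hbad⟩ := hcon S ⟨hS.1.1, hS.1.2, hS.2⟩
    refine ⟨j - (i + 1), hS, ?_⟩
    rw [Nat.add_sub_cancel' hj]
    intro hlarge
    apply hbad
    apply hlarge.mono
    rintro S' ⟨⟨h2, h3⟩, h4⟩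
    refine ⟨h2, ?_⟩
    intro b hb a ha
    rcases Finset.mem_union.mp hb with h | h
    · exact h3 b h a ha
    · exact h4 b h a ha
  obtain ⟨j, hj⟩ := h1.exists_of_iUnion
  exact good_block he hcount (hgood (i + 1 + j) (by omega)) _ hj

/-- The selection of an infinite sequence of blocks. -/
theorem select {e : G → G → ℕ} (he : EInj e) (hcount : ∀ a : G, (Set.Iic a).Countable)
    {P : ℕ → Finset G → Prop} (hP : ∀ j, Large (P j)) (K : ℕ → ℕ) (D : Finset G → Set G)
    (hD : ∀ F, (D F).Countable) :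
    ∃ S F : ℕ → Finset G, F 0 = ∅ ∧ (∀ i, F (i + 1) = F i ∪ S i) ∧
      ∀ i, P i (S i) ∧ Cross e (F i) (S i) (K i) ∧ ∀ s ∈ S i, s ∉ D (F i) := by
  have hstep : ∀ i : ℕ, ∀ F : Finset G,
      (∀ j, i ≤ j → Large fun S => P j S ∧ Cross e F S (K j)) →
      ∃ S, (P i S ∧ Cross e F S (K i) ∧ ∀ s ∈ S, s ∉ D F) ∧
        ∀ j, i + 1 ≤ j → Large fun S' => P j S' ∧ Cross e (F ∪ S) S' (K j) := by
    intro i F h
    exact select_step he hcount h (hD F)
  choose! nxt hn1 hn2 using hstep
  let F : ℕ → Finset G := fun n => Nat.rec ∅ (fun i F => F ∪ nxt i F) n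
  have hF0 : F 0 = ∅ := rfl
  have hFs : ∀ i, F (i + 1) = F i ∪ nxt i (F i) := fun i => rfl
  have hgood : ∀ i, ∀ j, i ≤ j → Large fun S => P j S ∧ Cross e (F i) S (K j) := by
    intro i
    induction i with
    | zero =>
      intro j _
      apply (hP j).mono
      intro S hS
      refine ⟨hS, ?_⟩
      intro b hb
      rw [hF0] at hb
      exact absurd hb (Finset.notMem_empty b)
    | succ i ih =>
      rw [hFs]
      exact hn2 i (F i) ih
  exact ⟨fun i => nxt i (F i), F, hF0, hFs, fun i => hn1 i (F i) (hgood i)⟩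

/-! ### The index set -/

/-- An index set of order type `ω₁`. -/
abbrev Idx : Type := (Cardinal.aleph 1).ord.ToType

theorem idx_countable (a : Idx) : (Set.Iic a).Countable := by
  have h1 : (Set.Iio a).Countable := by
    rw [← Cardinal.le_aleph0_iff_set_countable]
    have := Cardinal.mk_Iio_toType_ord_lt a
    exact Cardinal.lt_aleph_one_iff.mp this
  have : Set.Iic a = insert a (Set.Iio a) := by
    ext x
    simp [le_iff_lt_or_eq, or_comm]
  rw [this]
  exact h1.insert a

instance : Uncountable Idx := by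
  rw [← Cardinal.aleph0_lt_mk_iff, Cardinal.mk_ord_toType]
  exact Cardinal.aleph0_lt_aleph_one

theorem exists_einj : ∃ e : Idx → Idx → ℕ, EInj e := by
  classical
  have h : ∀ a : Idx, ∃ f : Idx → ℕ, Set.InjOn f (Set.Iio a) := by
    intro a
    have h1 : (Set.Iio a).Countable := (idx_countable a).mono Set.Iio_subset_Iic_self
    exact Set.countable_iff_exists_injOn.mp h1
  choose f hf using h
  exact ⟨fun b a => f a b, fun a b b' hb hb' h => hf a hb hb' h⟩

/-- Enumerations of the initial segments. -/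
noncomputable def ee : Idx → Idx → ℕ := exists_einj.choose

theorem ee_inj : EInj ee := exists_einj.choose_spec

end Pool.Agent.Helper570.Troy
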