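import Pool.Agent.Helper570.Troy.Space

/-!
The first norm `N1`: it has zero derivative at every nonzero `y` in the direction of each basis
vector outside the support of `y`.
-/

open Filter Topology

namespace Pool.Agent.Helper570.Troy

/-! ### The function `s ^ 2 / (s + t)` -/

noncomputable def gg (s t : ℝ) : ℝ := s ^ 2 / (s + t)

theorem gg_nonneg {s t : ℝ} (hs : 0 ≤ s) (ht : 0 ≤ t) : 0 ≤ gg s t :=
  div_nonneg (sq_nonneg _) (add_nonneg hs ht)

theorem gg_le {s t : ℝ} (hs : 0 ≤ s) (ht : 0 ≤ t) : gg s t ≤ s := by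
  unfold gg
  rcases (add_nonneg hs ht).eq_or_lt with h | h
  · rw [← h, div_zero]; exact hs
  · rw [div_le_iff₀ h]; nlinarith

theorem gg_ge {s t : ℝ} (hs : 0 ≤ s) (ht : 0 ≤ t) : s - t ≤ gg s t := by
  unfold gg
  rcases (add_nonneg hs ht).eq_or_lt with h | h
  · rw [← h, div_zero]; linarith
  · rw [le_div_iff₀ h]; nlinarith

theorem gg_mono_left {s s' t : ℝ} (hs : 0 ≤ s) (h : s ≤ s') (ht : 0 ≤ t) : gg s t ≤ gg s' t := by
  rcases (add_nonneg hs ht).eq_or_lt with h0 | h0
  · have : gg s t = 0 := by unfold gg; rw [← h0, div_zero]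
    rw [this]
    exact gg_nonneg (hs.trans h) ht
  · have h1 : 0 < s' + t := by linarith
    unfold gg
    rw [div_le_div_iff₀ h0 h1]
    nlinarith [mul_nonneg hs (hs.trans h), mul_nonneg (mul_nonneg hs (hs.trans h))
      (sub_nonneg.mpr h), mul_nonneg ht (sub_nonneg.mpr h),
      mul_nonneg (mul_nonneg ht (sub_nonneg.mpr h)) (add_nonneg hs (hs.trans h))]

theorem gg_lip_right {s t t' : ℝ} (hs : 0 ≤ s) (ht : 0 ≤ t) (h : t ≤ t') :
    gg s t ≤ gg s t' + (t' - t) := by
  rcases hs.eq_or_lt with h0 | h0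
  · subst h0
    unfold gg
    simp
    exact h
  · have h1 : 0 < s + t := by linarith
    have h2 : 0 < s + t' := by linarith
    unfold gg
    have : s ^ 2 / (s + t) - s ^ 2 / (s + t') = (t' - t) * (s ^ 2 / ((s + t) * (s + t'))) := by
      field_simp
      ring
    have h3 : s ^ 2 / ((s + t) * (s + t')) ≤ 1 := by
      rw [div_le_one (by positivity)]
      nlinarith
    have h4 := mul_le_mul_of_nonneg_left h3 (sub_nonneg.mpr h)
    linarith

theorem gg_add {s s' t t' : ℝ} (hs : 0 ≤ s) (hs' : 0 ≤ s') (ht : 0 ≤ t) (ht' : 0 ≤ t') :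
    gg (s + s') (t + t') ≤ gg s t + gg s' t' := by
  rcases (add_nonneg hs ht).eq_or_lt with h | h
  · have h1 : s = 0 := by linarith
    have h2 : t = 0 := by linarith
    subst h1; subst h2
    rw [zero_add, zero_add]
    have : gg 0 0 = 0 := by unfold gg; simp
    rw [this, zero_add]
  rcases (add_nonneg hs' ht').eq_or_lt with h' | h'
  · have h1 : s' = 0 := by linarith
    have h2 : t' = 0 := by linarith
    subst h1; subst h2
    rw [add_zero, add_zero]
    have : gg 0 0 = 0 := by unfold gg; simp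
    rw [this, add_zero]
  unfold gg
  have e : s + s' + (t + t') = (s + t) + (s' + t') := by ring
  rw [e, div_add_div _ _ h.ne' h'.ne', div_le_div_iff₀ (by positivity) (by positivity)]
  nlinarith [sq_nonneg (s * (s' + t') - s' * (s + t)), mul_pos h h']

theorem gg_smul {c : ℝ} (hc : 0 < c) (s t : ℝ) : gg (c * s) (c * t) = c * gg s t := by
  unfold gg
  rw [← mul_add]
  by_cases h : s + t = 0
  · rw [h]; simp
  · field_simp

theorem gg_le_sq {h t t0 : ℝ} (hh : 0 ≤ h) (ht : 0 < t0) (htt : t0 ≤ t) :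
    gg h t ≤ h ^ 2 / t0 := by
  unfold gg
  exact div_le_div_of_nonneg_left (sq_nonneg _) ht (by linarith)

/-! ### The link weights -/

noncomputable def w1 (n : ℕ) : ℝ := 1 / (8 * 2 ^ n * ((n : ℝ) + 1))

theorem w1_pos (n : ℕ) : 0 < w1 n := by unfold w1; positivity

theorem sum_labels {α : Type*} (A : Finset α) (l : α → ℕ)
    (h : ∀ n, (A.filter fun a => l a = n).card ≤ n + 1) : ∑ a ∈ A, w1 (l a) ≤ 1 / 4 := by
  classical
  rw [Finset.sum_comp w1 l]
  calc ∑ n ∈ A.image l, (A.filter fun a => l a = n).card • w1 n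
      ≤ ∑ n ∈ A.image l, 1 / 8 * (1 / 2 : ℝ) ^ n := by
        apply Finset.sum_le_sum
        intro n _
        rw [nsmul_eq_mul]
        have h1 : ((A.filter fun a => l a = n).card : ℝ) ≤ (n : ℝ) + 1 := by
          exact_mod_cast h n
        calc ((A.filter fun a => l a = n).card : ℝ) * w1 n ≤ ((n : ℝ) + 1) * w1 n :=
              mul_le_mul_of_nonneg_right h1 (w1_pos n).le
          _ = 1 / 8 * (1 / 2 : ℝ) ^ n := by
              unfold w1
              rw [one_div_pow]
              field_simp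
    _ = 1 / 8 * ∑ n ∈ A.image l, (1 / 2 : ℝ) ^ n := by rw [Finset.mul_sum]
    _ ≤ 1 / 8 * 2 := by
        apply mul_le_mul_of_nonneg_left _ (by norm_num)
        have h2 : ∑ n ∈ A.image l, (1 / 2 : ℝ) ^ n ≤ ∑' n : ℕ, (1 / 2 : ℝ) ^ n :=
          summable_geometric_two.sum_le_tsum _ fun i _ => by positivity
        rw [tsum_geometric_two] at h2
        exact h2
    _ = 1 / 4 := by norm_num

open Classical in
/-- The weight of `a` relative to the pivot `b`. -/
noncomputable def eps (b a : Idx) : ℝ := if b < a then w1 (ee b a) else w1 (ee a b)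

theorem eps_pos (b a : Idx) : 0 < eps b a := by
  unfold eps
  split_ifs
  · exact w1_pos _
  · exact w1_pos _

theorem sum_eps {F : Finset Idx} (hF : AA F) {b : Idx} (hb : b ∈ F) :
    ∑ a ∈ F.erase b, eps b a ≤ 1 / 2 := by
  classical
  rw [← Finset.sum_filter_add_sum_filter_not (F.erase b) (fun a => b < a)]
  have h1 : ∑ a ∈ (F.erase b).filter (fun a => b < a), eps b a ≤ 1 / 4 := by
    have e1 : ∑ a ∈ (F.erase b).filter (fun a => b < a), eps b a =
        ∑ a ∈ (F.erase b).filter (fun a => b < a), w1 (ee b a) := by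
      apply Finset.sum_congr rfl
      intro a ha
      unfold eps
      rw [if_pos (Finset.mem_filter.mp ha).2]
    rw [e1]
    apply sum_labels
    intro n
    refine (Finset.card_le_card ?_).trans ((hF b hb n).trans (Nat.le_succ n))
    intro a ha
    rw [Finset.mem_filter, Finset.mem_filter] at ha
    rw [Finset.mem_filter]
    exact ⟨Finset.mem_of_mem_erase ha.1.1, ha.1.2, ha.2⟩
  have h2 : ∑ a ∈ (F.erase b).filter (fun a => ¬ b < a), eps b a ≤ 1 / 4 := by
    have e1 : ∑ a ∈ (F.erase b).filter (fun a => ¬ b < a), eps b a =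
        ∑ a ∈ (F.erase b).filter (fun a => ¬ b < a), w1 (ee a b) := by
      apply Finset.sum_congr rfl
      intro a ha
      unfold eps
      rw [if_neg (Finset.mem_filter.mp ha).2]
    rw [e1]
    apply sum_labels _ (fun a => ee a b)
    intro n
    refine le_trans ?_ (Nat.le_add_left 1 n)
    rw [Finset.card_le_one]
    intro a ha a' ha'
    rw [Finset.mem_filter, Finset.mem_filter] at ha ha'
    have hab : a < b := lt_of_le_of_ne (not_lt.mp ha.1.2) (Finset.ne_of_mem_erase ha.1.1)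
    have hab' : a' < b := lt_of_le_of_ne (not_lt.mp ha'.1.2) (Finset.ne_of_mem_erase ha'.1.1)
    exact ee_inj b a a' hab hab' (ha.2.trans ha'.2.symm)
  linarith

/-! ### The building blocks -/

noncomputable def HH (F : Finset Idx) (b : Idx) (u : Idx → ℝ) : ℝ :=
  2 * u b + ∑ a ∈ F.erase b, gg (u a) (eps b a * u b)

theorem sum_erase (F : Finset Idx) {b : Idx} (hb : b ∈ F) (u : Idx → ℝ) :
    ∑ a ∈ F, u a = u b + ∑ a ∈ F.erase b, u a := by
  rw [Finset.add_sum_erase F u hb]

theorem HH_le {F : Finset Idx} {b : Idx} (hb : b ∈ F) {u : Idx → ℝ} (hu : ∀ s, 0 ≤ u s) :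
    HH F b u ≤ ∑ a ∈ F, u a + u b := by
  unfold HH
  rw [sum_erase F hb u]
  have : ∑ a ∈ F.erase b, gg (u a) (eps b a * u b) ≤ ∑ a ∈ F.erase b, u a :=
    Finset.sum_le_sum fun a _ => gg_le (hu a) (mul_nonneg (eps_pos b a).le (hu b))
  linarith

theorem HH_ge {F : Finset Idx} (hF : AA F) {b : Idx} (hb : b ∈ F) {u : Idx → ℝ}
    (hu : ∀ s, 0 ≤ u s) : ∑ a ∈ F, u a + 1 / 2 * u b ≤ HH F b u := by
  unfold HH
  rw [sum_erase F hb u]
  have h1 : ∑ a ∈ F.erase b, (u a - eps b a * u b) ≤
      ∑ a ∈ F.erase b, gg (u a) (eps b a * u b) :=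
    Finset.sum_le_sum fun a _ => gg_ge (hu a) (mul_nonneg (eps_pos b a).le (hu b))
  rw [Finset.sum_sub_distrib, ← Finset.sum_mul] at h1
  have h2 := mul_le_mul_of_nonneg_right (sum_eps hF hb) (hu b)
  linarith

theorem HH_mono {F : Finset Idx} (hF : AA F) {b : Idx} (hb : b ∈ F) {u v : Idx → ℝ}
    (hu : ∀ s, 0 ≤ u s) (huv : ∀ s, u s ≤ v s) : HH F b u ≤ HH F b v := by
  unfold HH
  have h1 : ∑ a ∈ F.erase b, gg (u a) (eps b a * u b) ≤
      ∑ a ∈ F.erase b, (gg (v a) (eps b a * v b) + eps b a * (v b - u b)) := by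
    apply Finset.sum_le_sum
    intro a _
    have e1 : 0 ≤ eps b a := (eps_pos b a).le
    have e2 : eps b a * u b ≤ eps b a * v b := mul_le_mul_of_nonneg_left (huv b) e1
    have e3 := gg_lip_right (hu a) (mul_nonneg e1 (hu b)) e2
    have e4 := gg_mono_left (hu a) (huv a) (mul_nonneg e1 ((hu b).trans (huv b)))
    linarith
  rw [Finset.sum_add_distrib, ← Finset.sum_mul] at h1
  have h2 := mul_le_mul_of_nonneg_right (sum_eps hF hb) (sub_nonneg.mpr (huv b))
  have h3 := huv b
  linarith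

theorem HH_add {F : Finset Idx} {b : Idx} {u v : Idx → ℝ}
    (hu : ∀ s, 0 ≤ u s) (hv : ∀ s, 0 ≤ v s) :
    HH F b (fun s => u s + v s) ≤ HH F b u + HH F b v := by
  unfold HH
  have h1 : ∑ a ∈ F.erase b, gg (u a + v a) (eps b a * (u b + v b)) ≤
      ∑ a ∈ F.erase b, (gg (u a) (eps b a * u b) + gg (v a) (eps b a * v b)) := by
    apply Finset.sum_le_sum
    intro a _
    rw [mul_add]
    exact gg_add (hu a) (hv a) (mul_nonneg (eps_pos b a).le (hu b))
      (mul_nonneg (eps_pos b a).le (hv b))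
  rw [Finset.sum_add_distrib] at h1
  linarith

theorem HH_smul {F : Finset Idx} {b : Idx} {c : ℝ} (hc : 0 < c) (u : Idx → ℝ) :
    HH F b (fun s => c * u s) = c * HH F b u := by
  unfold HH
  rw [mul_add, Finset.mul_sum]
  congr 1
  · ring
  · apply Finset.sum_congr rfl
    intro a _
    rw [← gg_smul hc]
    congr 1
    ring

/-! ### The norm `N1` -/

def sumsN (f : Idx → ℝ) : Set ℝ := {r | ∃ F b, AA F ∧ b ∈ F ∧ r = HH F b fun s => |f s|}

noncomputable def N1 (f : X) : ℝ := sSup (sumsN f)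

theorem HH_le_norm (f : X) {F : Finset Idx} (hF : AA F) {b : Idx} (hb : b ∈ F) :
    HH F b (fun s => |f s|) ≤ 2 * ‖f‖ := by
  have h1 := HH_le hb (u := fun s => |f s|) fun s => abs_nonneg _
  have h2 := f.sum_le hF
  have h3 := f.abs_le b
  linarith

theorem bdd_sumsN (f : X) : BddAbove (sumsN f) := by
  refine ⟨2 * ‖f‖, ?_⟩
  rintro _ ⟨F, b, hF, hb, rfl⟩
  exact HH_le_norm f hF hb

theorem le_N1 (f : X) {F : Finset Idx} (hF : AA F) {b : Idx} (hb : b ∈ F) :
    HH F b (fun s => |f s|) ≤ N1 f := le_csSup (bdd_sumsN f) ⟨F, b, hF, hb, rfl⟩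

theorem N1_le {f : X} {r : ℝ} (h : ∀ F b, AA F → b ∈ F → HH F b (fun s => |f s|) ≤ r) :
    N1 f ≤ r := by
  obtain ⟨c⟩ : Nonempty Idx := inferInstance
  apply csSup_le
  · exact ⟨_, {c}, c, Adm.singleton _ _, Finset.mem_singleton_self c, rfl⟩
  · rintro _ ⟨F, b, hF, hb, rfl⟩
    exact h F b hF hb

theorem N1_le_norm (f : X) : N1 f ≤ 2 * ‖f‖ := N1_le fun _ _ hF hb => HH_le_norm f hF hb

theorem sum_add_half_le (f : X) {F : Finset Idx} (hF : AA F) {b : Idx} (hb : b ∈ F) :
    ∑ a ∈ F, |f a| + 1 / 2 * |f b| ≤ N1 f :=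
  (HH_ge hF hb (u := fun s => |f s|) fun s => abs_nonneg _).trans (le_N1 f hF hb)

theorem N1_nonneg (f : X) : 0 ≤ N1 f := by
  obtain ⟨c⟩ : Nonempty Idx := inferInstance
  have := sum_add_half_le f (Adm.singleton ee c) (Finset.mem_singleton_self c)
  rw [Finset.sum_singleton] at this
  linarith [abs_nonneg (f c)]

theorem norm_le_N1 (f : X) : ‖f‖ ≤ N1 f := by
  apply X.norm_le
  intro F hF
  rcases F.eq_empty_or_nonempty with rfl | ⟨b, hb⟩
  · rw [Finset.sum_empty]; exact N1_nonneg f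
  · have := sum_add_half_le f hF hb
    linarith [abs_nonneg (f b)]

theorem N1_mono {f g : X} (h : ∀ s, |f s| ≤ |g s|) : N1 f ≤ N1 g :=
  N1_le fun _ _ hF hb => (HH_mono hF hb (fun s => abs_nonneg _) h).trans (le_N1 g hF hb)

theorem N1_add (f g : X) : N1 (f + g) ≤ N1 f + N1 g := by
  apply N1_le
  intro F b hF hb
  have h1 : HH F b (fun s => |(f + g) s|) ≤ HH F b (fun s => |f s| + |g s|) :=
    HH_mono hF hb (fun s => abs_nonneg _) fun s => abs_add_le _ _
  have h2 := HH_add (F := F) (b := b) (u := fun s => |f s|) (v := fun s => |g s|)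
    (fun s => abs_nonneg _) fun s => abs_nonneg _
  have h3 := le_N1 f hF hb
  have h4 := le_N1 g hF hb
  linarith

theorem N1_smul_le {c : ℝ} (hc : 0 < c) (f : X) : N1 (c • f) ≤ c * N1 f := by
  apply N1_le
  intro F b hF hb
  have : (fun s => |(c • f) s|) = fun s => c * |f s| := by
    funext s
    rw [X.smul_apply, abs_mul, abs_of_pos hc]
  rw [this, HH_smul hc]
  exact mul_le_mul_of_nonneg_left (le_N1 f hF hb) hc.le

theorem N1_neg (f : X) : N1 (-f) = N1 f := by
  apply le_antisymm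
  · apply N1_mono; intro s; rw [X.neg_apply, abs_neg]
  · apply N1_mono; intro s; rw [X.neg_apply, abs_neg]

theorem N1_smul (c : ℝ) (f : X) : N1 (c • f) = |c| * N1 f := by
  have hpos : ∀ c : ℝ, 0 < c → N1 (c • f) = c * N1 f := by
    intro c hc
    apply le_antisymm (N1_smul_le hc f)
    have h := N1_smul_le (inv_pos.mpr hc) (c • f)
    rw [smul_smul, inv_mul_cancel₀ hc.ne', one_smul] at h
    calc c * N1 f ≤ c * (c⁻¹ * N1 (c • f)) := mul_le_mul_of_nonneg_left h hc.le
      _ = N1 (c • f) := by rw [← mul_assoc, mul_inv_cancel₀ hc.ne', one_mul]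
  rcases lt_trichotomy c 0 with hc | hc | hc
  · have h1 := hpos (-c) (by linarith)
    rw [neg_smul, N1_neg] at h1
    rw [h1, abs_of_neg hc]
  · subst hc
    rw [zero_smul, abs_zero, zero_mul]
    apply le_antisymm _ (N1_nonneg _)
    have := N1_le_norm 0
    rw [norm_zero, mul_zero] at this
    exact this
  · rw [hpos c hc, abs_of_pos hc]

/-! ### No derivative outside the support -/

theorem exists_gap {y : X} (hy : y ≠ 0) :
    ∃ ρ : ℝ, 0 < ρ ∧ ∀ F, AA F → ∑ a ∈ F, |y a| ≤ N1 y - ρ := by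
  classical
  have hpos : 0 < ‖y‖ := norm_pos_iff.mpr hy
  obtain ⟨F0, hF0⟩ := y.tail (‖y‖ / 8) (by positivity)
  set m : ℝ := (F0.card : ℝ) + 1 with hm
  have hmpos : 0 < m := by positivity
  refine ⟨min (‖y‖ / 2) (‖y‖ / (8 * m)), by positivity, ?_⟩
  intro F hF
  have hN := norm_le_N1 y
  by_cases h : ∑ a ∈ F, |y a| ≤ ‖y‖ / 2
  · have := min_le_left (‖y‖ / 2) (‖y‖ / (8 * m))
    linarith
  · push Not at h
    have h1 : ∑ a ∈ F \ F0, |y a| ≤ ‖y‖ / 8 := by
      apply hF0 _ (hF.subset Finset.sdiff_subset)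
      intro s hs
      exact (Finset.mem_sdiff.mp hs).2
    have h2 := Finset.sum_inter_add_sum_sdiff F F0 fun a => |y a|
    have h3 : 3 / 8 * ‖y‖ < ∑ a ∈ F ∩ F0, |y a| := by linarith
    have h4 : ∃ b ∈ F ∩ F0, ‖y‖ / (4 * m) ≤ |y b| := by
      by_contra hcon
      push Not at hcon
      have h5 : ∑ a ∈ F ∩ F0, |y a| ≤ ∑ a ∈ F ∩ F0, ‖y‖ / (4 * m) :=
        Finset.sum_le_sum fun a ha => (hcon a ha).le
      rw [Finset.sum_const, nsmul_eq_mul] at h5
      have h6 : ((F ∩ F0).card : ℝ) ≤ m := by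
        have : (F ∩ F0).card ≤ F0.card := Finset.card_le_card Finset.inter_subset_right
        have : ((F ∩ F0).card : ℝ) ≤ (F0.card : ℝ) := by exact_mod_cast this
        linarith
      have h7 : ((F ∩ F0).card : ℝ) * (‖y‖ / (4 * m)) ≤ m * (‖y‖ / (4 * m)) :=
        mul_le_mul_of_nonneg_right h6 (by positivity)
      have h8 : m * (‖y‖ / (4 * m)) = ‖y‖ / 4 := by field_simp
      linarith
    obtain ⟨b, hb, hyb⟩ := h4
    have h5 := sum_add_half_le y hF (Finset.mem_of_mem_inter_left hb)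
    have h6 := min_le_right (‖y‖ / 2) (‖y‖ / (8 * m))
    have h7 : 1 / 2 * (‖y‖ / (4 * m)) = ‖y‖ / (8 * m) := by
      field_simp
      norm_num
    linarith

theorem exists_pos_lower (F : Finset Idx) (f : Idx → ℝ) (hf : ∀ s, 0 < f s) :
    ∃ c : ℝ, 0 < c ∧ ∀ s ∈ F, c ≤ f s := by
  classical
  induction F using Finset.induction_on with
  | empty => exact ⟨1, one_pos, fun s hs => absurd hs (Finset.notMem_empty s)⟩
  | insert a F _ ih =>
    obtain ⟨c, hc, h⟩ := ih
    refine ⟨min c (f a), lt_min hc (hf a), ?_⟩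
    intro s hs
    rcases Finset.mem_insert.mp hs with rfl | hs
    · exact min_le_right _ _
    · exact (min_le_left _ _).trans (h s hs)

theorem N1_zero_dir {y : X} (hy : y ≠ 0) {c : Idx} (hc : y c = 0) :
    ∃ h0 : ℝ, 0 < h0 ∧ ∃ k : ℝ, 0 ≤ k ∧ ∀ h, 0 < h → h ≤ h0 →
      N1 (y + h • bas c) ≤ N1 y + k * h ^ 2 := by
  classical
  obtain ⟨ρ, hρ, hgap⟩ := exists_gap hy
  obtain ⟨F0, hF0⟩ := y.tail (ρ / 4) (by positivity)
  have hbig : ∀ b, ρ / 2 ≤ |y b| → b ∈ F0 := by
    intro b hb
    by_contra hn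
    have := hF0 {b} (Adm.singleton _ _) (by
      intro s hs
      rw [Finset.mem_singleton] at hs
      rw [hs]; exact hn)
    rw [Finset.sum_singleton] at this
    linarith
  obtain ⟨e0, he0, he⟩ := exists_pos_lower F0 (fun b => eps b c) fun b => eps_pos b c
  have ht0 : 0 < e0 * (ρ / 2) := by positivity
  refine ⟨ρ / 2, by positivity, 1 / (e0 * (ρ / 2)), by positivity, ?_⟩
  intro h hh hh0
  have hk : 0 ≤ 1 / (e0 * (ρ / 2)) * h ^ 2 := by positivity
  apply N1_le
  intro F b hF hb
  have hval : ∀ s, s ≠ c → |(y + h • bas c) s| = |y s| := by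
    intro s hs
    rw [X.add_apply, X.smul_apply, bas_ne hs, mul_zero, add_zero]
  have hvalc : |(y + h • bas c) c| = h := by
    rw [X.add_apply, X.smul_apply, bas_self, hc, mul_one, zero_add, abs_of_pos hh]
  by_cases hcF : c ∈ F
  · by_cases hbc : b = c
    · subst hbc
      have h1 : HH F b (fun s => |(y + h • bas b) s|) ≤
          2 * h + ∑ a ∈ F.erase b, |y a| := by
        unfold HH
        simp only [hvalc]
        apply add_le_add le_rfl
        apply Finset.sum_le_sum
        intro a ha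
        rw [hval a (Finset.ne_of_mem_erase ha)]
        exact gg_le (abs_nonneg _) (mul_nonneg (eps_pos b a).le hh.le)
      have h2 := hgap (F.erase b) (hF.subset (Finset.erase_subset _ _))
      linarith
    · have hbF' : b ∈ F.erase c := Finset.mem_erase.mpr ⟨hbc, hb⟩
      have e1 : F.erase b = insert c ((F.erase c).erase b) := by
        ext s
        simp only [Finset.mem_erase, Finset.mem_insert]
        constructor
        · rintro ⟨h1, h2⟩
          by_cases hs : s = c
          · exact Or.inl hs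
          · exact Or.inr ⟨h1, hs, h2⟩
        · rintro (h1 | ⟨h1, h2, h3⟩)
          · rw [h1]; exact ⟨Ne.symm hbc, hcF⟩
          · exact ⟨h1, h3⟩
      have h1 : HH F b (fun s => |(y + h • bas c) s|) =
          HH (F.erase c) b (fun s => |y s|) + gg h (eps b c * |y b|) := by
        unfold HH
        rw [e1, Finset.sum_insert (by simp)]
        simp only [hvalc, hval b hbc]
        have : ∑ a ∈ (F.erase c).erase b, gg |(y + h • bas c) a| (eps b a * |y b|) =
            ∑ a ∈ (F.erase c).erase b, gg |y a| (eps b a * |y b|) := by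
          apply Finset.sum_congr rfl
          intro a ha
          rw [hval a (Finset.ne_of_mem_erase (Finset.mem_of_mem_erase ha))]
        rw [this]
        ring
      rw [h1]
      have hF' : AA (F.erase c) := hF.subset (Finset.erase_subset _ _)
      by_cases hyb : ρ / 2 ≤ |y b|
      · have h2 := le_N1 y hF' hbF'
        have h3 : gg h (eps b c * |y b|) ≤ h ^ 2 / (e0 * (ρ / 2)) := by
          apply gg_le_sq hh.le ht0
          exact mul_le_mul (he b (hbig b hyb)) hyb (by positivity) (eps_pos b c).le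
        have h4 : h ^ 2 / (e0 * (ρ / 2)) = 1 / (e0 * (ρ / 2)) * h ^ 2 := by ring
        linarith
      · push Not at hyb
        have h2 := HH_le hbF' (u := fun s => |y s|) fun s => abs_nonneg _
        have h3 := hgap (F.erase c) hF'
        have h4 := gg_le hh.le (mul_nonneg (eps_pos b c).le (abs_nonneg (y b)))
        linarith
  · have h1 : HH F b (fun s => |(y + h • bas c) s|) = HH F b (fun s => |y s|) := by
      have hbc : b ≠ c := fun h => hcF (h ▸ hb)
      unfold HH
      simp only [hval b hbc]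
      congr 1
      apply Finset.sum_congr rfl
      intro a ha
      rw [hval a fun h => hcF (h ▸ Finset.mem_of_mem_erase ha)]
    rw [h1]
    have := le_N1 y hF hb
    linarith

end Pool.Agent.Helper570.Troy
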