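import Pool.Agent.Helper570.Troy.Fam

/-!
The Banach space of the functions `x` on the index set for which the sums of `|x|` over admissible
sets are uniformly small off finite sets, normed by the supremum of these sums.
-/

open Filter Topology

namespace Pool.Agent.Helper570.Troy

/-- Admissible finite subsets of the index set. -/
abbrev AA (F : Finset Idx) : Prop := Adm ee F

/-- The sums of `|f|` over the admissible sets. -/
def sumsX (f : Idx → ℝ) : Set ℝ := {r | ∃ F, AA F ∧ r = ∑ s ∈ F, |f s|}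

/-- The sums over admissible sets are small off finite sets. -/
def Tail (f : Idx → ℝ) : Prop :=
  ∀ ε : ℝ, 0 < ε → ∃ F0 : Finset Idx, ∀ F, AA F → (∀ s ∈ F, s ∉ F0) → ∑ s ∈ F, |f s| ≤ ε

theorem bdd_of_tail {f : Idx → ℝ} (h : Tail f) : BddAbove (sumsX f) := by
  classical
  obtain ⟨F0, hF0⟩ := h 1 one_pos
  refine ⟨∑ s ∈ F0, |f s| + 1, ?_⟩
  rintro _ ⟨F, hF, rfl⟩
  rw [← Finset.sum_inter_add_sum_sdiff F F0]
  apply add_le_add
  · exact Finset.sum_le_sum_of_subset_of_nonneg Finset.inter_subset_right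
      fun _ _ _ => abs_nonneg _
  · apply hF0 _ (hF.subset Finset.sdiff_subset)
    intro s hs
    exact (Finset.mem_sdiff.mp hs).2

/-- The underlying vector space. -/
def XSub : Submodule ℝ (Idx → ℝ) where
  carrier := {f | Tail f}
  zero_mem' := by
    intro ε hε
    refine ⟨∅, ?_⟩
    intro F _ _
    simp [hε.le]
  add_mem' := by
    classical
    intro f g hf hg ε hε
    obtain ⟨F0, h1⟩ := hf (ε / 2) (half_pos hε)
    obtain ⟨F1, h2⟩ := hg (ε / 2) (half_pos hε)
    refine ⟨F0 ∪ F1, ?_⟩
    intro F hF hd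
    have a1 := h1 F hF fun s hs h => hd s hs (Finset.mem_union_left _ h)
    have a2 := h2 F hF fun s hs h => hd s hs (Finset.mem_union_right _ h)
    calc ∑ s ∈ F, |(f + g) s| ≤ ∑ s ∈ F, (|f s| + |g s|) :=
          Finset.sum_le_sum fun s _ => abs_add_le _ _
      _ = ∑ s ∈ F, |f s| + ∑ s ∈ F, |g s| := Finset.sum_add_distrib
      _ ≤ ε := by linarith
  smul_mem' := by
    intro c f hf ε hε
    obtain ⟨F0, h1⟩ := hf (ε / (|c| + 1)) (by positivity)
    refine ⟨F0, ?_⟩
    intro F hF hd
    have a1 := h1 F hF hd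
    have e1 : ∑ s ∈ F, |(c • f) s| = |c| * ∑ s ∈ F, |f s| := by
      rw [Finset.mul_sum]
      apply Finset.sum_congr rfl
      intro s _
      rw [Pi.smul_apply, smul_eq_mul, abs_mul]
    rw [e1]
    calc |c| * ∑ s ∈ F, |f s| ≤ |c| * (ε / (|c| + 1)) :=
          mul_le_mul_of_nonneg_left a1 (abs_nonneg _)
      _ ≤ (|c| + 1) * (ε / (|c| + 1)) :=
          mul_le_mul_of_nonneg_right (by linarith) (by positivity)
      _ = ε := by field_simp

/-- The Banach space. -/
def X : Type := XSub

instance : AddCommGroup X := inferInstanceAs (AddCommGroup XSub)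

instance : Module ℝ X := inferInstanceAs (Module ℝ XSub)

instance : CoeFun X fun _ => Idx → ℝ := ⟨fun f => f.1⟩

noncomputable instance : Norm X := ⟨fun f => sSup (sumsX f)⟩

theorem X.ext {f g : X} (h : ∀ x, f x = g x) : f = g := Subtype.ext (funext h)

@[simp] theorem X.add_apply (f g : X) (x : Idx) : (f + g) x = f x + g x := rfl

@[simp] theorem X.smul_apply (c : ℝ) (f : X) (x : Idx) : (c • f) x = c * f x := rfl

@[simp] theorem X.neg_apply (f : X) (x : Idx) : (-f) x = -f x := rfl

@[simp] theorem X.sub_apply (f g : X) (x : Idx) : (f - g) x = f x - g x := rfl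

@[simp] theorem X.zero_apply (x : Idx) : (0 : X) x = 0 := rfl

theorem X.tail (f : X) : Tail f := f.2

theorem X.sum_le (f : X) {F : Finset Idx} (hF : AA F) : ∑ s ∈ F, |f s| ≤ ‖f‖ :=
  le_csSup (bdd_of_tail f.tail) ⟨F, hF, rfl⟩

theorem X.norm_le (f : X) {r : ℝ} (h : ∀ F, AA F → ∑ s ∈ F, |f s| ≤ r) : ‖f‖ ≤ r := by
  apply csSup_le
  · exact ⟨_, ∅, Adm.empty _, rfl⟩
  · rintro _ ⟨F, hF, rfl⟩
    exact h F hF

theorem X.abs_le (f : X) (s : Idx) : |f s| ≤ ‖f‖ := by
  have := f.sum_le (Adm.singleton ee s)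
  rwa [Finset.sum_singleton] at this

theorem X.norm_nonneg' (f : X) : 0 ≤ ‖f‖ := by
  have := f.sum_le (Adm.empty ee)
  rwa [Finset.sum_empty] at this

theorem X.norm_smul_le (c : ℝ) (f : X) : ‖c • f‖ ≤ |c| * ‖f‖ := by
  apply X.norm_le
  intro F hF
  have e1 : ∑ s ∈ F, |(c • f) s| = |c| * ∑ s ∈ F, |f s| := by
    rw [Finset.mul_sum]
    apply Finset.sum_congr rfl
    intro s _
    rw [X.smul_apply, abs_mul]
  rw [e1]
  exact mul_le_mul_of_nonneg_left (f.sum_le hF) (abs_nonneg _)

theorem X.core : NormedSpace.Core ℝ X where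
  norm_nonneg f := f.norm_nonneg'
  norm_smul c f := by
    rw [Real.norm_eq_abs]
    apply le_antisymm (X.norm_smul_le c f)
    rcases eq_or_ne c 0 with rfl | hc
    · rw [abs_zero, zero_mul]
      exact X.norm_nonneg' _
    · have h := X.norm_smul_le c⁻¹ (c • f)
      rw [smul_smul, inv_mul_cancel₀ hc, one_smul, abs_inv] at h
      have hc' : 0 < |c| := abs_pos.mpr hc
      calc |c| * ‖f‖ ≤ |c| * (|c|⁻¹ * ‖c • f‖) := mul_le_mul_of_nonneg_left h hc'.le
        _ = ‖c • f‖ := by rw [← mul_assoc, mul_inv_cancel₀ hc'.ne', one_mul]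
  norm_triangle f g := by
    apply X.norm_le
    intro F hF
    calc ∑ s ∈ F, |(f + g) s| ≤ ∑ s ∈ F, (|f s| + |g s|) :=
          Finset.sum_le_sum fun s _ => abs_add_le _ _
      _ = ∑ s ∈ F, |f s| + ∑ s ∈ F, |g s| := Finset.sum_add_distrib
      _ ≤ ‖f‖ + ‖g‖ := add_le_add (f.sum_le hF) (g.sum_le hF)
  norm_eq_zero_iff f := by
    constructor
    · intro h
      apply X.ext
      intro x
      have := f.abs_le x
      rw [h] at this
      exact abs_eq_zero.mp (le_antisymm this (abs_nonneg _))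
    · rintro rfl
      apply le_antisymm _ (X.norm_nonneg' _)
      apply X.norm_le
      intro F _
      simp

noncomputable instance : NormedAddCommGroup X := NormedAddCommGroup.ofCore X.core

noncomputable instance : NormedSpace ℝ X := NormedSpace.ofCore X.core

theorem X.complete : CompleteSpace X := by
  classical
  apply Metric.complete_of_cauchySeq_tendsto
  intro u hu
  have hpt : ∀ x, CauchySeq fun n => u n x := by
    intro x
    rw [Metric.cauchySeq_iff] at hu ⊢
    intro ε hε
    obtain ⟨N, hN⟩ := hu ε hε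
    refine ⟨N, fun m hm n hn => ?_⟩
    have h1 := hN m hm n hn
    rw [dist_eq_norm] at h1
    rw [Real.dist_eq]
    have h2 := X.abs_le (u m - u n) x
    rw [X.sub_apply] at h2
    exact h2.trans_lt h1
  choose v hv using fun x => cauchySeq_tendsto_of_complete (hpt x)
  have hkey : ∀ ε : ℝ, 0 < ε → ∃ N, ∀ n, N ≤ n → ∀ F, AA F → ∑ s ∈ F, |u n s - v s| ≤ ε := by
    intro ε hε
    obtain ⟨N, hN⟩ := Metric.cauchySeq_iff.mp hu ε hε
    refine ⟨N, fun n hn F hF => ?_⟩
    have h1 : Tendsto (fun m => ∑ s ∈ F, |(u n - u m) s|) atTop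
        (𝓝 (∑ s ∈ F, |u n s - v s|)) := by
      apply tendsto_finsetSum
      intro i _
      apply Tendsto.abs
      exact tendsto_const_nhds.sub (hv _)
    apply le_of_tendsto h1
    filter_upwards [eventually_ge_atTop N] with m hm
    have h2 := hN n hn m hm
    rw [dist_eq_norm] at h2
    exact ((u n - u m).sum_le hF).trans h2.le
  have hvt : Tail v := by
    intro ε hε
    obtain ⟨N, hN⟩ := hkey (ε / 2) (half_pos hε)
    obtain ⟨F0, hF0⟩ := (u N).tail (ε / 2) (half_pos hε)
    refine ⟨F0, ?_⟩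
    intro F hF hd
    have a1 := hN N le_rfl F hF
    have a2 := hF0 F hF hd
    calc ∑ s ∈ F, |v s| ≤ ∑ s ∈ F, (|u N s - v s| + |u N s|) := by
          apply Finset.sum_le_sum
          intro s _
          have := abs_sub_abs_le_abs_sub (v s) (u N s)
          rw [abs_sub_comm] at this
          linarith
      _ = ∑ s ∈ F, |u N s - v s| + ∑ s ∈ F, |u N s| := Finset.sum_add_distrib
      _ ≤ ε := by linarith
  obtain ⟨w, hw⟩ : ∃ w : X, (w : Idx → ℝ) = v := ⟨⟨v, hvt⟩, rfl⟩
  refine ⟨w, ?_⟩
  rw [Metric.tendsto_atTop]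
  intro ε hε
  obtain ⟨N, hN⟩ := hkey (ε / 2) (half_pos hε)
  refine ⟨N, fun n hn => ?_⟩
  rw [dist_eq_norm]
  have := X.norm_le (u n - w) (r := ε / 2) (by
    intro F hF
    have := hN n hn F hF
    rw [← hw] at this
    exact this)
  exact this.trans_lt (half_lt_self hε)

/-! ### The basis -/

theorem tail_of_finite {f : Idx → ℝ} (F0 : Finset Idx) (h : ∀ s, s ∉ F0 → f s = 0) : Tail f := by
  intro ε hε
  refine ⟨F0, ?_⟩
  intro F _ hd
  have : ∑ s ∈ F, |f s| = 0 := by
    apply Finset.sum_eq_zero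
    intro s hs
    rw [h s (hd s hs), abs_zero]
  rw [this]
  exact hε.le

open Classical in
/-- The basis vectors. -/
noncomputable def bas (c : Idx) : X :=
  ⟨fun s => if s = c then 1 else 0, tail_of_finite {c} fun s hs => by
    rw [if_neg]
    intro h
    exact hs (Finset.mem_singleton.mpr h)⟩

theorem bas_self (c : Idx) : bas c c = 1 := if_pos rfl

theorem bas_ne {c s : Idx} (h : s ≠ c) : bas c s = 0 := if_neg h

open Classical in
/-- The restriction to a set. -/
noncomputable def res (A : Set Idx) (f : X) : X :=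
  ⟨fun s => if s ∈ A then f s else 0, by
    intro ε hε
    obtain ⟨F0, hF0⟩ := f.tail ε hε
    refine ⟨F0, ?_⟩
    intro F hF hd
    refine le_trans (Finset.sum_le_sum ?_) (hF0 F hF hd)
    intro s _
    simp only
    split_ifs
    · exact le_rfl
    · rw [abs_zero]; exact abs_nonneg _⟩

theorem res_mem {A : Set Idx} {s : Idx} (h : s ∈ A) (f : X) : res A f s = f s := if_pos h

theorem res_not_mem {A : Set Idx} {s : Idx} (h : s ∉ A) (f : X) : res A f s = 0 := if_neg h

theorem sum_apply (F : Finset Idx) (c : Idx → ℝ) (s : Idx) :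
    ((∑ i ∈ F, c i • bas i : X) : Idx → ℝ) s = if s ∈ F then c s else 0 := by
  classical
  induction F using Finset.induction_on with
  | empty => simp
  | insert a F ha ih =>
    rw [Finset.sum_insert ha, X.add_apply, X.smul_apply, ih]
    by_cases hs : s = a
    · subst hs
      rw [bas_self, if_neg ha, if_pos (Finset.mem_insert_self _ _)]
      ring
    · rw [bas_ne hs]
      by_cases h2 : s ∈ F
      · rw [if_pos h2, if_pos (Finset.mem_insert_of_mem h2)]; ring
      · rw [if_neg h2, if_neg]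
        · ring
        · intro h3
          rcases Finset.mem_insert.mp h3 with h | h
          · exact hs h
          · exact h2 h

theorem hasSum_bas (x : X) : HasSum (fun i => x i • bas i) x := by
  classical
  unfold HasSum
  rw [Metric.tendsto_nhds]
  intro ε hε
  obtain ⟨F0, hF0⟩ := x.tail (ε / 2) (half_pos hε)
  filter_upwards [eventually_ge_atTop F0] with F hF
  rw [dist_eq_norm]
  have : ‖∑ i ∈ F, x i • bas i - x‖ ≤ ε / 2 := by
    apply X.norm_le
    intro A hA
    have e1 : ∑ s ∈ A, |(∑ i ∈ F, x i • bas i - x : X) s| = ∑ s ∈ A \ F, |x s| := by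
      rw [← Finset.sum_inter_add_sum_sdiff A F]
      have h0 : ∑ s ∈ A ∩ F, |(∑ i ∈ F, x i • bas i - x : X) s| = 0 := by
        apply Finset.sum_eq_zero
        intro s hs
        rw [X.sub_apply, sum_apply, if_pos (Finset.mem_inter.mp hs).2, sub_self, abs_zero]
      rw [h0, zero_add]
      apply Finset.sum_congr rfl
      intro s hs
      rw [X.sub_apply, sum_apply, if_neg (Finset.mem_sdiff.mp hs).2, zero_sub, abs_neg]
    rw [e1]
    apply hF0 _ (hA.subset Finset.sdiff_subset)
    intro s hs h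
    exact (Finset.mem_sdiff.mp hs).2 (hF h)
  linarith

/-- The coordinate functionals. -/
noncomputable def coord (c : Idx) : X →L[ℝ] ℝ :=
  LinearMap.mkContinuous
    { toFun := fun f => f c
      map_add' := fun _ _ => rfl
      map_smul' := fun _ _ => rfl } 1 fun f => by
    rw [one_mul, Real.norm_eq_abs]
    exact f.abs_le c

theorem coord_apply (c : Idx) (f : X) : coord c f = f c := rfl

theorem norm_bas (c : Idx) : ‖bas c‖ = 1 := by
  apply le_antisymm
  · apply X.norm_le
    intro F _
    classical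
    calc ∑ s ∈ F, |bas c s| = ∑ s ∈ F, if s = c then (1:ℝ) else 0 := by
          apply Finset.sum_congr rfl
          intro s _
          by_cases h : s = c
          · subst h; rw [bas_self, if_pos rfl, abs_one]
          · rw [bas_ne h, if_neg h, abs_zero]
      _ ≤ 1 := by
          rw [Finset.sum_ite_eq' F c]
          split_ifs <;> norm_num
  · have := (bas c).abs_le c
    rwa [bas_self, abs_one] at this

/-- Finitely supported elements are dense. -/
theorem exists_finite_approx (x : X) {ε : ℝ} (hε : 0 < ε) :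
    ∃ (F : Finset Idx) (y : X), (∀ s, s ∉ F → y s = 0) ∧ ‖x - y‖ < ε := by
  have h := hasSum_bas x
  unfold HasSum at h
  rw [Metric.tendsto_nhds] at h
  obtain ⟨F, hF⟩ := (h ε hε).exists
  refine ⟨F, ∑ i ∈ F, x i • bas i, ?_, ?_⟩
  · intro s hs
    rw [sum_apply, if_neg hs]
  · rw [dist_eq_norm] at hF
    rwa [norm_sub_rev]

theorem dense_bas (x : X) : x ∈ closure (Submodule.span ℝ (Set.range bas) : Set X) := by
  rw [Metric.mem_closure_iff]
  intro ε hε
  have h := hasSum_bas x
  unfold HasSum at h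
  rw [Metric.tendsto_nhds] at h
  obtain ⟨F, hF⟩ := (h ε hε).exists
  refine ⟨∑ i ∈ F, x i • bas i, ?_, ?_⟩
  · apply Submodule.sum_mem
    intro i _
    exact Submodule.smul_mem _ _ (Submodule.subset_span ⟨i, rfl⟩)
  · rwa [dist_comm]

end Pool.Agent.Helper570.Troy
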