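import Pool.Agent.Helper570.Troy.Space

/-!
Every continuous linear functional on `X` has countable support.
-/

open Filter Topology

namespace Pool.Agent.Helper570.Troy

theorem refine_above {A : Set Idx} (hA : ¬ A.Countable) (B : Finset Idx) :
    ∃ (n : Idx → ℕ) (A' : Set Idx), A' ⊆ A ∧ ¬ A'.Countable ∧
      ∀ b ∈ B, ∀ a ∈ A', b < a ∧ ee b a = n b := by
  classical
  set A1 : Set Idx := A \ ⋃ b ∈ B, Set.Iic b with hA1
  have hcB : (⋃ b ∈ B, Set.Iic b).Countable :=
    Set.Countable.biUnion B.countable_toSet fun b _ => idx_countable b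
  have h1 : ¬ A1.Countable := by
    intro h
    apply hA
    exact (h.union hcB).mono fun x hx => by
      by_cases hx' : x ∈ ⋃ b ∈ B, Set.Iic b
      · exact Or.inr hx'
      · exact Or.inl ⟨hx, hx'⟩
  have h2 : ∃ v : B → ℕ, ¬ {a | a ∈ A1 ∧ ∀ b : B, ee b a = v b}.Countable := by
    by_contra hcon
    push Not at hcon
    apply h1
    refine (Set.countable_iUnion hcon).mono ?_
    intro a ha
    exact Set.mem_iUnion.mpr ⟨fun b => ee b a, ha, fun _ => rfl⟩
  obtain ⟨v, hv⟩ := h2
  refine ⟨fun s => if h : s ∈ B then v ⟨s, h⟩ else 0, _, fun a ha => ha.1.1, hv, ?_⟩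
  intro b hb a ha
  refine ⟨?_, ?_⟩
  · by_contra hab
    exact ha.1.2 (Set.mem_biUnion hb (not_lt.mp hab))
  · beta_reduce
    rw [dif_pos hb]
    exact ha.2 ⟨b, hb⟩

theorem small_comb {A : Set Idx} (hA : ¬ A.Countable) (k : ℕ) :
    ∃ (F : Finset Idx) (a : Idx → ℝ) (A' : Set Idx) (N : ℕ) (n : Idx → ℕ),
      (∀ s ∈ F, s ∈ A) ∧ A' ⊆ A ∧ ¬ A'.Countable ∧
      (∀ b ∈ F, ∀ c ∈ A', b < c ∧ ee b c = n b) ∧ (∀ b ∈ F, n b ≤ N) ∧
      (∀ s, 0 ≤ a s) ∧ ∑ s ∈ F, a s = k ∧
      ∀ S, AA S → ∑ s ∈ S.filter (fun s => s ∈ F), a s ≤ 2 - (1 / 2 : ℝ) ^ k := by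
  classical
  induction k with
  | zero =>
    refine ⟨∅, fun _ => 0, A, 0, fun _ => 0, by simp, subset_rfl, hA, by simp, by simp, by simp,
      by simp, ?_⟩
    intro S _
    simp
  | succ k ih =>
    obtain ⟨F, a, A', N, n, h1, h2, h3, h4, h5, h6, h7, h8⟩ := ih
    set L : ℕ := 2 ^ (k + 1) * N + 1 with hL
    have hA'inf : A'.Infinite := fun hfin => h3 hfin.countable
    obtain ⟨B, hB1, hB2⟩ := hA'inf.exists_subset_card_eq L
    obtain ⟨n', A'', hA1, hA2, hA3⟩ := refine_above h3 B
    have hdisj : ∀ s ∈ B, s ∉ F := by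
      intro s hs hF
      exact absurd (h4 s hF s (hB1 hs)).1 (lt_irrefl s)
    have hLpos : (0:ℝ) < L := by rw [hL]; positivity
    refine ⟨F ∪ B, fun s => if s ∈ B then 1 / (L : ℝ) else a s, A'', max N (B.sup n'),
      fun s => if s ∈ B then n' s else n s, ?_, hA1.trans h2, hA2, ?_, ?_, ?_, ?_, ?_⟩
    · intro s hs
      rcases Finset.mem_union.mp hs with h | h
      · exact h1 s h
      · exact h2 (hB1 h)
    · intro b hb c hc
      beta_reduce
      by_cases hbB : b ∈ B
      · rw [if_pos hbB]; exact hA3 b hbB c hc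
      · rw [if_neg hbB]
        exact h4 b ((Finset.mem_union.mp hb).resolve_right hbB) c (hA1 hc)
    · intro b hb
      by_cases hbB : b ∈ B
      · simp only [if_pos hbB]
        exact (Finset.le_sup (f := n') hbB).trans (le_max_right _ _)
      · simp only [if_neg hbB]
        exact (h5 b ((Finset.mem_union.mp hb).resolve_right hbB)).trans (le_max_left _ _)
    · intro s
      beta_reduce
      split_ifs
      · positivity
      · exact h6 s
    · rw [Finset.sum_union (Finset.disjoint_right.mpr hdisj)]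
      have e1 : ∑ s ∈ F, (if s ∈ B then 1 / (L : ℝ) else a s) = ∑ s ∈ F, a s := by
        apply Finset.sum_congr rfl
        intro s hs
        rw [if_neg fun h => hdisj s h hs]
      have e2 : ∑ s ∈ B, (if s ∈ B then 1 / (L : ℝ) else a s) = 1 := by
        rw [Finset.sum_congr rfl fun s hs => if_pos hs, Finset.sum_const, hB2, nsmul_eq_mul]
        field_simp
      rw [e1, e2, h7]
      push_cast
      ring
    · intro S hS
      have e0 : S.filter (fun s => s ∈ F ∪ B) =
          S.filter (fun s => s ∈ F) ∪ S.filter (fun s => s ∈ B) := by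
        ext s
        simp only [Finset.mem_filter, Finset.mem_union]
        tauto
      have hd : Disjoint (S.filter fun s => s ∈ F) (S.filter fun s => s ∈ B) := by
        rw [Finset.disjoint_left]
        intro s hs hs'
        exact hdisj s (Finset.mem_filter.mp hs').2 (Finset.mem_filter.mp hs).2
      rw [e0, Finset.sum_union hd]
      have e1 : ∑ s ∈ S.filter (fun s => s ∈ F), (if s ∈ B then 1 / (L : ℝ) else a s) =
          ∑ s ∈ S.filter (fun s => s ∈ F), a s := by
        apply Finset.sum_congr rfl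
        intro s hs
        rw [if_neg fun h => hdisj s h (Finset.mem_filter.mp hs).2]
      have e2 : ∑ s ∈ S.filter (fun s => s ∈ B), (if s ∈ B then 1 / (L : ℝ) else a s) =
          ((S.filter fun s => s ∈ B).card : ℝ) / L := by
        rw [Finset.sum_congr rfl fun s hs => if_pos (Finset.mem_filter.mp hs).2,
          Finset.sum_const, nsmul_eq_mul]
        ring
      rw [e1, e2]
      by_cases hne : (S.filter fun s => s ∈ F) = ∅
      · rw [hne, Finset.sum_empty, zero_add]
        have hc : ((S.filter fun s => s ∈ B).card : ℝ) ≤ L := by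
          have : (S.filter fun s => s ∈ B).card ≤ B.card := by
            apply Finset.card_le_card
            intro s hs
            exact (Finset.mem_filter.mp hs).2
          rw [hB2] at this
          exact_mod_cast this
        have h9 : ((S.filter fun s => s ∈ B).card : ℝ) / L ≤ 1 := (div_le_one hLpos).mpr hc
        have h10 : (1 / 2 : ℝ) ^ (k + 1) ≤ 1 := pow_le_one₀ (by norm_num) (by norm_num)
        linarith
      · obtain ⟨b, hb⟩ := Finset.nonempty_iff_ne_empty.mpr hne
        rw [Finset.mem_filter] at hb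
        have hc : (S.filter fun s => s ∈ B).card ≤ N := by
          refine (Finset.card_le_card ?_).trans ((hS b hb.1 (n b)).trans (h5 b hb.2))
          intro s hs
          rw [Finset.mem_filter] at hs ⊢
          exact ⟨hs.1, h4 b hb.2 s (hB1 hs.2)⟩
        have h9 : ((S.filter fun s => s ∈ B).card : ℝ) / L ≤ (1 / 2 : ℝ) ^ (k + 1) := by
          rw [div_le_iff₀ hLpos, hL]
          push_cast
          have hc' : ((S.filter fun s => s ∈ B).card : ℝ) ≤ N := by exact_mod_cast hc
          have e3 : (1 / 2 : ℝ) ^ (k + 1) * (2 ^ (k + 1) * (N : ℝ) + 1) =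
              N + (1 / 2 : ℝ) ^ (k + 1) := by
            rw [one_div_pow]
            field_simp
          rw [e3]
          have : (0:ℝ) ≤ (1 / 2 : ℝ) ^ (k + 1) := by positivity
          linarith
        have h10 := h8 S hS
        have h11 : (1 / 2 : ℝ) ^ k = 2 * (1 / 2 : ℝ) ^ (k + 1) := by
          rw [pow_succ]; ring
        linarith

/-- The coefficients of a continuous linear functional are zero off a countable set. -/
theorem countable_supp (f : X →L[ℝ] ℝ) : {γ | f (bas γ) ≠ 0}.Countable := by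
  classical
  have hun : {γ | f (bas γ) ≠ 0} = ⋃ m : ℕ, {γ | 1 / ((m : ℝ) + 1) < |f (bas γ)|} := by
    ext γ
    simp only [Set.mem_ofPred_eq, Set.mem_iUnion]
    constructor
    · intro h
      exact exists_nat_one_div_lt (abs_pos.mpr h)
    · rintro ⟨m, hm⟩ h0
      rw [h0, abs_zero] at hm
      have : (0:ℝ) < 1 / ((m : ℝ) + 1) := by positivity
      linarith
  rw [hun]
  refine Set.countable_iUnion fun m => ?_
  by_contra hA
  set ε : ℝ := 1 / ((m : ℝ) + 1) with hε
  have hεpos : 0 < ε := by positivity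
  obtain ⟨k, hk⟩ := exists_nat_gt (2 * ‖f‖ / ε)
  obtain ⟨F, a, A', N, n, h1, h2, h3, h4, h5, h6, h7, h8⟩ := small_comb hA k
  set x : X := ∑ s ∈ F, (a s * SignType.sign (f (bas s))) • bas s with hx
  have hxs : ∀ s, |x s| ≤ if s ∈ F then a s else 0 := by
    intro s
    rw [hx, sum_apply F fun s => a s * SignType.sign (f (bas s))]
    split_ifs
    · rw [abs_mul, abs_of_nonneg (h6 s)]
      refine mul_le_of_le_one_right (h6 s) ?_
      rcases lt_trichotomy (f (bas s)) 0 with h | h | h
      · rw [sign_neg h]; simp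
      · rw [h]; simp
      · rw [sign_pos h]; simp
    · simp
  have hnorm : ‖x‖ ≤ 2 := by
    apply X.norm_le
    intro S hS
    calc ∑ s ∈ S, |x s| ≤ ∑ s ∈ S, if s ∈ F then a s else 0 :=
          Finset.sum_le_sum fun s _ => hxs s
      _ = ∑ s ∈ S.filter (fun s => s ∈ F), a s := by rw [Finset.sum_filter]
      _ ≤ 2 - (1 / 2 : ℝ) ^ k := h8 S hS
      _ ≤ 2 := by
          have : (0:ℝ) ≤ (1 / 2 : ℝ) ^ k := by positivity
          linarith
  have hfx : f x = ∑ s ∈ F, a s * |f (bas s)| := by
    rw [hx, map_sum]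
    apply Finset.sum_congr rfl
    intro s _
    rw [map_smul, smul_eq_mul, mul_assoc, sign_mul_self]
  have hge : ε * k ≤ f x := by
    rw [hfx, ← h7, Finset.mul_sum]
    apply Finset.sum_le_sum
    intro s hs
    have h9 : ε < |f (bas s)| := h1 s hs
    nlinarith [h6 s]
  have hle : f x ≤ ‖f‖ * 2 := by
    calc f x ≤ |f x| := le_abs_self _
      _ = ‖f x‖ := (Real.norm_eq_abs _).symm
      _ ≤ ‖f‖ * ‖x‖ := f.le_opNorm x
      _ ≤ ‖f‖ * 2 := mul_le_mul_of_nonneg_left hnorm (norm_nonneg f)
  rw [div_lt_iff₀ hεpos] at hk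
  linarith

theorem ext_bas {f g : X →L[ℝ] ℝ} (h : ∀ γ, f (bas γ) = g (bas γ)) : f = g := by
  apply ContinuousLinearMap.ext_on (s := Set.range bas)
  · intro x
    exact dense_bas x
  · rintro _ ⟨γ, rfl⟩
    exact h γ

end Pool.Agent.Helper570.Troy
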